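import Pool.Agent.ANP.Stmts

/-!
# The torus as an instance of `Geo`
-/

set_option autoImplicit false

open Finset

namespace Pool.Agent.ANP.H61

/-- the cyclic distance -/
def cd {M : ℕ} (a b : ZMod M) : ℕ := (a - b).valMinAbs.natAbs

/-- the sup distance of the torus -/
def sd {d M : ℕ} (x y : Fin d → ZMod M) : ℕ := Finset.univ.sup fun i => cd (x i) (y i)

/-- rounding down to a multiple of `2 ^ j` -/
def rnd {μ : ℕ} (j : ℕ) (a : ZMod (2 ^ μ)) : ZMod (2 ^ μ) := ((a.val / 2 ^ j * 2 ^ j : ℕ) : ZMod (2 ^ μ))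

theorem cd_self {M : ℕ} (a : ZMod M) : cd a a = 0 := by simp [cd]

theorem cd_comm {M : ℕ} (a b : ZMod M) : cd a b = cd b a := by
  unfold cd
  rw [← ZMod.natAbs_valMinAbs_neg, neg_sub]

theorem cd_tri {M : ℕ} (a b c : ZMod M) : cd a c ≤ cd a b + cd b c := by
  unfold cd
  have h := ZMod.natAbs_valMinAbs_add_le (a - b) (b - c)
  rw [sub_add_sub_cancel] at h
  exact h.trans (Int.natAbs_add_le _ _)

/-- the distance is at most the absolute value of every integer representative of the difference -/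
theorem cd_le {M : ℕ} [NeZero M] (a b : ZMod M) (k : ℤ) (h : a - b = (k : ZMod M)) :
    cd a b ≤ k.natAbs := by
  unfold cd
  refine ZMod.natAbs_min_of_le_div_two M _ _ ?_ (ZMod.natAbs_valMinAbs_le _)
  rw [ZMod.coe_valMinAbs, h]

theorem exists_int {M : ℕ} (a b : ZMod M) : ∃ k : ℤ, a - b = (k : ZMod M) ∧ k.natAbs = cd a b :=
  ⟨(a - b).valMinAbs, (ZMod.coe_valMinAbs _).symm, rfl⟩

theorem sd_le {d M : ℕ} (x y : Fin d → ZMod M) (t : ℕ) : sd x y ≤ t ↔ ∀ i, cd (x i) (y i) ≤ t := by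
  simp [sd, Finset.sup_le_iff]

theorem sd_self {d M : ℕ} (x : Fin d → ZMod M) : sd x x = 0 := by
  have := (sd_le x x 0).2 (fun i => by rw [cd_self])
  omega

theorem sd_comm {d M : ℕ} (x y : Fin d → ZMod M) : sd x y = sd y x := by
  unfold sd
  congr 1
  funext i
  exact cd_comm _ _

theorem le_sd {d M : ℕ} (x y : Fin d → ZMod M) (i : Fin d) : cd (x i) (y i) ≤ sd x y :=
  Finset.le_sup (f := fun i => cd (x i) (y i)) (mem_univ i)

theorem sd_tri {d M : ℕ} (x y z : Fin d → ZMod M) : sd x z ≤ sd x y + sd y z := by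
  rw [sd_le]
  intro i
  have h1 := cd_tri (x i) (y i) (z i)
  have h2 := le_sd x y i
  have h3 := le_sd y z i
  omega

variable {μ : ℕ}

instance neZ : NeZero (2 ^ μ) := ⟨by positivity⟩

theorem val_rnd (j : ℕ) (a : ZMod (2 ^ μ)) : (rnd j a).val = a.val / 2 ^ j * 2 ^ j := by
  unfold rnd
  rw [ZMod.val_natCast]
  refine Nat.mod_eq_of_lt ?_
  exact lt_of_le_of_lt (Nat.div_mul_le_self _ _) (ZMod.val_lt a)

theorem rnd_idem (j : ℕ) (a : ZMod (2 ^ μ)) : rnd j (rnd j a) = rnd j a := by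
  have h := val_rnd j a
  unfold rnd at h ⊢
  rw [h, Nat.mul_div_cancel _ (by positivity)]

theorem rnd_nest (j k : ℕ) (hjk : j ≤ k) (a : ZMod (2 ^ μ)) : rnd k (rnd j a) = rnd k a := by
  have h := val_rnd j a
  have h1 : (a.val / 2 ^ j * 2 ^ j) / 2 ^ k = a.val / 2 ^ k := by
    obtain ⟨m, rfl⟩ := Nat.exists_eq_add_of_le hjk
    rw [pow_add, ← Nat.div_div_eq_div_mul, ← Nat.div_div_eq_div_mul,
      Nat.mul_div_cancel _ (by positivity)]
  show (((rnd j a).val / 2 ^ k * 2 ^ k : ℕ) : ZMod (2 ^ μ)) = _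
  rw [h, h1]
  rfl

theorem rnd_eq (j : ℕ) (a b : ZMod (2 ^ μ)) (h : rnd j a = rnd j b) :
    a.val / 2 ^ j = b.val / 2 ^ j := by
  have h1 := congrArg ZMod.val h
  rw [val_rnd, val_rnd] at h1
  exact Nat.eq_of_mul_eq_mul_right (by positivity) h1

theorem cd_of_rnd (j : ℕ) (a b : ZMod (2 ^ μ)) (h : rnd j a = rnd j b) : cd a b ≤ 2 ^ j := by
  have h1 := rnd_eq j a b h
  have h2 := cd_le a b ((a.val : ℤ) - b.val) (by push_cast; simp)
  have h3 := Nat.div_add_mod a.val (2 ^ j)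
  have h4 := Nat.div_add_mod b.val (2 ^ j)
  have h5 : a.val % 2 ^ j < 2 ^ j := Nat.mod_lt _ (by positivity)
  have h6 : b.val % 2 ^ j < 2 ^ j := Nat.mod_lt _ (by positivity)
  rw [h1] at h3
  omega

theorem rnd_int (j : ℕ) (hj : j ≤ μ) (z : ℤ) :
    rnd j (z : ZMod (2 ^ μ)) = ((z / 2 ^ j * 2 ^ j : ℤ) : ZMod (2 ^ μ)) := by
  obtain ⟨m, rfl⟩ := Nat.exists_eq_add_of_le hj
  have h1 : ((((z : ZMod (2 ^ (j + m))).val : ℕ) : ℤ)) = z % (2 ^ (j + m) : ℕ) := ZMod.val_intCast z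
  have h2 := Int.emod_add_mul_ediv z ((2 ^ (j + m) : ℕ) : ℤ)
  have h3 : (((z : ZMod (2 ^ (j + m))).val / 2 ^ j * 2 ^ j : ℕ) : ℤ) =
      z / 2 ^ j * 2 ^ j - ((2 ^ (j + m) : ℕ) : ℤ) * (z / ((2 ^ (j + m) : ℕ) : ℤ)) := by
    push_cast
    rw [h1]
    have h4 : z % ((2 ^ (j + m) : ℕ) : ℤ) = z + 2 ^ j * (-(2 ^ m * (z / ((2 ^ (j + m) : ℕ) : ℤ)))) := by
      have : ((2 ^ (j + m) : ℕ) : ℤ) = 2 ^ j * 2 ^ m := by push_cast; ring
      rw [this] at h2 ⊢
      linarith [h2]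
    rw [h4, Int.add_mul_ediv_left _ _ (by positivity)]
    push_cast
    ring
  show (((z : ZMod (2 ^ (j + m))).val / 2 ^ j * 2 ^ j : ℕ) : ZMod (2 ^ (j + m))) = _
  have h5 := congrArg (fun t : ℤ => (t : ZMod (2 ^ (j + m)))) h3
  have h6 : ((((2 ^ (j + m) : ℕ) : ℤ) * (z / ((2 ^ (j + m) : ℕ) : ℤ)) : ℤ) :
      ZMod (2 ^ (j + m))) = 0 := by
    rw [Int.cast_mul, Int.cast_natCast, ZMod.natCast_self, zero_mul]
  simp only [Int.cast_natCast, Int.cast_sub, h6, sub_zero] at h5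
  exact h5

theorem meet1 (j : ℕ) (a : ZMod (2 ^ μ)) :
    (({b | cd a b ≤ 2 ^ j} : Finset (ZMod (2 ^ μ))).image (rnd j)).card ≤ 3 := by
  rcases Nat.lt_or_ge μ j with h | h
  · have h1 : (({b | cd a b ≤ 2 ^ j} : Finset (ZMod (2 ^ μ))).image (rnd j)) ⊆ {0} := by
      intro c hc
      obtain ⟨b, _, rfl⟩ := mem_image.1 hc
      rw [mem_singleton]
      unfold rnd
      rw [Nat.div_eq_of_lt, zero_mul, Nat.cast_zero]
      exact lt_of_lt_of_le (ZMod.val_lt b) (Nat.pow_le_pow_right (by norm_num) h.le)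
    have := card_le_card h1
    rw [card_singleton] at this
    omega
  · obtain ⟨q, hq⟩ : ∃ q : ℤ, q = (a.val : ℤ) / 2 ^ j := ⟨_, rfl⟩
    have h1 : (({b | cd a b ≤ 2 ^ j} : Finset (ZMod (2 ^ μ))).image (rnd j)) ⊆
        {(((q - 1) * 2 ^ j : ℤ) : ZMod (2 ^ μ)), ((q * 2 ^ j : ℤ) : ZMod (2 ^ μ)),
          (((q + 1) * 2 ^ j : ℤ) : ZMod (2 ^ μ))} := by
      intro c hc
      obtain ⟨b, hb, rfl⟩ := mem_image.1 hc
      rw [mem_filter] at hb
      obtain ⟨k, hk1, hk2⟩ := exists_int a b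
      have hb1 : b = (((a.val : ℤ) - k : ℤ) : ZMod (2 ^ μ)) := by
        push_cast
        rw [← hk1]
        simp
      rw [hb1, rnd_int j h]
      have hk3 : k.natAbs ≤ 2 ^ j := by rw [hk2]; exact hb.2
      have hk4 : |k| ≤ 2 ^ j := by
        rw [Int.abs_eq_natAbs]
        exact_mod_cast hk3
      rw [abs_le] at hk4
      have hp : (0 : ℤ) < 2 ^ j := by positivity
      have e1 : q * 2 ^ j ≤ (a.val : ℤ) := by
        rw [hq]; exact Int.ediv_mul_le _ hp.ne'
      have e2 : (a.val : ℤ) < (q + 1) * 2 ^ j := by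
        rw [hq]; exact Int.lt_ediv_add_one_mul_self _ hp
      have e3 : q - 1 ≤ ((a.val : ℤ) - k) / 2 ^ j := by
        rw [Int.le_ediv_iff_mul_le hp]
        linarith
      have e4 : ((a.val : ℤ) - k) / 2 ^ j < q + 2 := by
        rw [Int.ediv_lt_iff_lt_mul hp]
        linarith
      have e5 : ((a.val : ℤ) - k) / 2 ^ j = q - 1 ∨ ((a.val : ℤ) - k) / 2 ^ j = q ∨
          ((a.val : ℤ) - k) / 2 ^ j = q + 1 := by omega
      rw [mem_insert, mem_insert, mem_singleton]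
      rcases e5 with e | e | e
      · left; rw [e]
      · right; left; rw [e]
      · right; right; rw [e]
    refine (card_le_card h1).trans ?_
    exact Finset.card_le_three

/-- the neighbours of a block (helper49) -/
theorem meetb1 (j : ℕ) (a : ZMod (2 ^ μ)) :
    (({b | ∃ z, rnd j z = rnd j a ∧ cd z b ≤ 2 ^ j} : Finset (ZMod (2 ^ μ))).image
      (rnd j)).card ≤ 3 := by
  rcases Nat.lt_or_ge μ j with h | h
  · have h1 : (({b | ∃ z, rnd j z = rnd j a ∧ cd z b ≤ 2 ^ j} : Finset (ZMod (2 ^ μ))).image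
        (rnd j)) ⊆ {0} := by
      intro c hc
      obtain ⟨b, _, rfl⟩ := mem_image.1 hc
      rw [mem_singleton]
      unfold rnd
      rw [Nat.div_eq_of_lt, zero_mul, Nat.cast_zero]
      exact lt_of_lt_of_le (ZMod.val_lt b) (Nat.pow_le_pow_right (by norm_num) h.le)
    have := card_le_card h1
    rw [card_singleton] at this
    omega
  · obtain ⟨q, hq⟩ : ∃ q : ℤ, q = (a.val : ℤ) / 2 ^ j := ⟨_, rfl⟩
    have h1 : (({b | ∃ z, rnd j z = rnd j a ∧ cd z b ≤ 2 ^ j} : Finset (ZMod (2 ^ μ))).image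
        (rnd j)) ⊆
        {(((q - 1) * 2 ^ j : ℤ) : ZMod (2 ^ μ)), ((q * 2 ^ j : ℤ) : ZMod (2 ^ μ)),
          (((q + 1) * 2 ^ j : ℤ) : ZMod (2 ^ μ))} := by
      intro c hc
      obtain ⟨b, hb, rfl⟩ := mem_image.1 hc
      rw [mem_filter] at hb
      obtain ⟨-, z, hz, hzb⟩ := hb
      obtain ⟨k, hk1, hk2⟩ := exists_int z b
      have hq' : q = (z.val : ℤ) / 2 ^ j := by
        rw [hq]
        have h5 := rnd_eq j z a hz
        have h6 := congrArg (fun t : ℕ => (t : ℤ)) h5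
        push_cast at h6
        exact h6.symm
      have hb1 : b = (((z.val : ℤ) - k : ℤ) : ZMod (2 ^ μ)) := by
        push_cast
        rw [← hk1]
        simp
      rw [hb1, rnd_int j h]
      have hk3 : k.natAbs ≤ 2 ^ j := by rw [hk2]; exact hzb
      have hk4 : |k| ≤ 2 ^ j := by
        rw [Int.abs_eq_natAbs]
        exact_mod_cast hk3
      rw [abs_le] at hk4
      have hp : (0 : ℤ) < 2 ^ j := by positivity
      have e1 : q * 2 ^ j ≤ (z.val : ℤ) := by
        rw [hq']; exact Int.ediv_mul_le _ hp.ne'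
      have e2 : (z.val : ℤ) < (q + 1) * 2 ^ j := by
        rw [hq']; exact Int.lt_ediv_add_one_mul_self _ hp
      have e3 : q - 1 ≤ ((z.val : ℤ) - k) / 2 ^ j := by
        rw [Int.le_ediv_iff_mul_le hp]
        linarith
      have e4 : ((z.val : ℤ) - k) / 2 ^ j < q + 2 := by
        rw [Int.ediv_lt_iff_lt_mul hp]
        linarith
      have e5 : ((z.val : ℤ) - k) / 2 ^ j = q - 1 ∨ ((z.val : ℤ) - k) / 2 ^ j = q ∨
          ((z.val : ℤ) - k) / 2 ^ j = q + 1 := by omega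
      rw [mem_insert, mem_insert, mem_singleton]
      rcases e5 with e | e | e
      · left; rw [e]
      · right; left; rw [e]
      · right; right; rw [e]
    exact (card_le_card h1).trans Finset.card_le_three

theorem ball1 (a : ZMod (2 ^ μ)) (t : ℕ) :
    ({b | cd a b ≤ t} : Finset (ZMod (2 ^ μ))).card ≤ 2 * t + 1 := by
  have h1 : ({b | cd a b ≤ t} : Finset (ZMod (2 ^ μ))) ⊆
      (Finset.Icc (-(t : ℤ)) t).image (fun k : ℤ => a - (k : ZMod (2 ^ μ))) := by
    intro b hb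
    rw [mem_filter] at hb
    obtain ⟨k, hk1, hk2⟩ := exists_int a b
    rw [mem_image]
    refine ⟨k, ?_, ?_⟩
    · rw [mem_Icc]
      omega
    · rw [← hk1]
      ring
  refine (card_le_card h1).trans (card_image_le.trans ?_)
  rw [Int.card_Icc]
  omega

theorem blk1 (j : ℕ) (c : ZMod (2 ^ μ)) :
    ({b | rnd j b = c} : Finset (ZMod (2 ^ μ))).card ≤ 2 ^ j := by
  have h1 : (({b | rnd j b = c} : Finset (ZMod (2 ^ μ))).image ZMod.val) ⊆
      Finset.Ico c.val (c.val + 2 ^ j) := by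
    intro v hv
    obtain ⟨b, hb, rfl⟩ := mem_image.1 hv
    rw [mem_filter] at hb
    rw [mem_Ico, ← hb.2, val_rnd]
    have h3 := Nat.div_add_mod b.val (2 ^ j)
    have h5 : b.val % 2 ^ j < 2 ^ j := Nat.mod_lt _ (by positivity)
    rw [mul_comm] at h3
    omega
  have h2 := card_le_card h1
  rw [card_image_of_injective _ (ZMod.val_injective _), Nat.card_Ico,
    Nat.add_sub_cancel_left] at h2
  exact h2

/-- blocks of level `j` in a block of level `k` -/
theorem sub1 (j k : ℕ) (hjk : j ≤ k) (c : ZMod (2 ^ μ)) :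
    ({b | rnd j b = b ∧ rnd k b = c} : Finset (ZMod (2 ^ μ))).card ≤ 2 ^ (k - j) := by
  have h1 : (({b | rnd j b = b ∧ rnd k b = c} : Finset (ZMod (2 ^ μ))).image
      (fun b => b.val / 2 ^ j)) ⊆ Finset.Ico (c.val / 2 ^ j) (c.val / 2 ^ j + 2 ^ (k - j)) := by
    intro v hv
    obtain ⟨b, hb, rfl⟩ := mem_image.1 hv
    rw [mem_filter] at hb
    obtain ⟨_, hb1, hb2⟩ := hb
    have h3 := Nat.div_add_mod b.val (2 ^ k)
    have h5 : b.val % 2 ^ k < 2 ^ k := Nat.mod_lt _ (by positivity)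
    have h6 : c.val = b.val / 2 ^ k * 2 ^ k := by rw [← hb2, val_rnd]
    have h7 : 2 ^ k = 2 ^ (k - j) * 2 ^ j := by rw [← pow_add]; congr 1; omega
    have h8 : c.val / 2 ^ j = b.val / 2 ^ k * 2 ^ (k - j) := by
      rw [h6, h7, ← mul_assoc, ← h7, Nat.mul_div_cancel _ (by positivity)]
    rw [mem_Ico, h8]
    constructor
    · rw [Nat.le_div_iff_mul_le (by positivity), mul_assoc, ← h7]
      rw [mul_comm] at h3
      omega
    · rw [Nat.div_lt_iff_lt_mul (by positivity), add_mul, mul_assoc, ← h7]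
      rw [mul_comm] at h3
      omega
  have h2 := card_le_card h1
  rw [card_image_of_injOn, Nat.card_Ico, Nat.add_sub_cancel_left] at h2
  · exact h2
  · intro b hb b' hb' hbb
    rw [coe_filter] at hb hb'
    have e1 := congrArg ZMod.val hb.2.1
    have e2 := congrArg ZMod.val hb'.2.1
    rw [val_rnd] at e1 e2
    refine ZMod.val_injective _ ?_
    simp only at hbb
    rw [← e1, ← e2, hbb]

/-- the torus with dyadic blocks -/
def geoT (d μ : ℕ) (l ρ : ℕ → ℕ) (J N : ℕ) : Geo (Fin d → ZMod (2 ^ μ)) where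
  D := sd
  bl n x := fun i => rnd (l n) (x i)
  L n := 2 ^ l n
  ρ := ρ
  J := J
  N := N

theorem pi_card {d : ℕ} {Y : Type} [Fintype Y] [DecidableEq Y] (S : Finset (Fin d → Y))
    (T : Fin d → Finset Y) (k : ℕ) (h : ∀ x ∈ S, ∀ i, x i ∈ T i) (hT : ∀ i, (T i).card ≤ k) :
    S.card ≤ k ^ d := by
  have h1 : S ⊆ Fintype.piFinset T := by
    intro x hx
    rw [Fintype.mem_piFinset]
    exact h x hx
  refine (card_le_card h1).trans ?_
  rw [Fintype.card_piFinset]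
  refine (Finset.prod_le_prod' (fun i _ => hT i)).trans ?_
  simp

/-- TRG: the torus satisfies `GeoOk`. -/
theorem trg (d μ : ℕ) (l ρ : ℕ → ℕ) (hl : Monotone l) (J N : ℕ) :
    GeoOk (geoT d μ l ρ J N) d where
  self := sd_self
  comm := sd_comm
  tri := sd_tri
  vol x t := by
    refine pi_card _ (fun i => ({b | cd (x i) b ≤ t} : Finset (ZMod (2 ^ μ)))) _ ?_ ?_
    · intro y hy i
      rw [mem_filter] at hy ⊢
      exact ⟨mem_univ _, (sd_le x y t).1 hy.2 i⟩
    · intro i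
      exact ball1 _ _
  idem n x := by
    funext i
    exact rnd_idem _ _
  nest n x := by
    funext i
    exact rnd_nest _ _ (hl (Nat.le_succ n)) _
  diam n x y h := by
    show sd x y ≤ 2 ^ l n
    rw [sd_le]
    intro i
    exact cd_of_rnd _ _ _ (congrFun h i)
  meet n x := by
    refine pi_card _ (fun i => ({b | cd (x i) b ≤ 2 ^ l n} : Finset (ZMod (2 ^ μ))).image
      (rnd (l n))) _ ?_ ?_
    · intro y hy i
      obtain ⟨z, hz, rfl⟩ := mem_image.1 hy
      rw [mem_filter] at hz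
      rw [mem_image]
      refine ⟨z i, ?_, rfl⟩
      rw [mem_filter]
      exact ⟨mem_univ _, (sd_le x z _).1 hz.2 i⟩
    · intro i
      exact meet1 _ _
  meetb n x := by
    refine pi_card _ (fun i => ({b | ∃ z, rnd (l n) z = rnd (l n) (x i) ∧ cd z b ≤ 2 ^ l n} :
      Finset (ZMod (2 ^ μ))).image (rnd (l n))) _ ?_ ?_
    · intro y hy i
      obtain ⟨w, hw, rfl⟩ := mem_image.1 hy
      rw [mem_filter] at hw
      obtain ⟨-, z, hz, hzw⟩ := hw
      rw [mem_image]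
      refine ⟨w i, ?_, rfl⟩
      rw [mem_filter]
      exact ⟨mem_univ _, z i, congrFun hz i, (sd_le z w _).1 hzw i⟩
    · intro i
      exact meetb1 _ _
  bvol n x := by
    refine pi_card _ (fun i => ({b | rnd (l n) b = x i} : Finset (ZMod (2 ^ μ)))) _ ?_ ?_
    · intro y hy i
      rw [Geo.blk, mem_filter] at hy
      rw [mem_filter]
      exact ⟨mem_univ _, congrFun hy.2 i⟩
    · intro i
      exact blk1 _ _

/-- the number of the sub-blocks -/
theorem trm (d μ : ℕ) (l ρ : ℕ → ℕ) (hl : Monotone l) (J N n : ℕ) (B : Fin d → ZMod (2 ^ μ)) :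
    ({b | (geoT d μ l ρ J N).bl n b = b ∧ (geoT d μ l ρ J N).bl (n + 1) b = B} :
      Finset (Fin d → ZMod (2 ^ μ))).card ≤ (2 ^ (l (n + 1) - l n)) ^ d := by
  refine pi_card _ (fun i => ({b | rnd (l n) b = b ∧ rnd (l (n + 1)) b = B i} :
    Finset (ZMod (2 ^ μ)))) _ ?_ ?_
  · intro y hy i
    rw [mem_filter] at hy
    rw [mem_filter]
    exact ⟨mem_univ _, congrFun hy.2.1 i, congrFun hy.2.2 i⟩
  · intro i
    exact sub1 _ _ (hl (Nat.le_succ n)) _

end Pool.Agent.ANP.H61
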