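import Pool.Agent.Helper61_ANP.Tor

/-!
# Sums over the blocks of the torus
-/

set_option autoImplicit false

open Finset

namespace Pool.Agent.ANP.H61

theorem int_sum (r : ℝ) (hr : 0 ≤ r) (hr1 : r < 1) (S : Finset ℤ) :
    ∑ q ∈ S, r ^ q.natAbs ≤ 2 / (1 - r) := by
  classical
  have h1 : ∑ q ∈ S, r ^ q.natAbs = ∑ m ∈ S.image Int.natAbs, ∑ q ∈ S.filter (fun q => q.natAbs = m),
      r ^ q.natAbs := by
    rw [Finset.sum_fiberwise_of_maps_to]
    intro q hq
    exact mem_image_of_mem _ hq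
  have h2 : ∀ m ∈ S.image Int.natAbs, ∑ q ∈ S.filter (fun q => q.natAbs = m), r ^ q.natAbs ≤
      2 * r ^ m := by
    intro m _
    have h3 : ∀ q ∈ S.filter (fun q => q.natAbs = m), r ^ q.natAbs = r ^ m := by
      intro q hq
      rw [(mem_filter.1 hq).2]
    rw [Finset.sum_congr rfl h3, Finset.sum_const, nsmul_eq_mul]
    refine mul_le_mul_of_nonneg_right ?_ (by positivity)
    have h4 : S.filter (fun q => q.natAbs = m) ⊆ {(m : ℤ), -(m : ℤ)} := by
      intro q hq
      have := (mem_filter.1 hq).2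
      rw [mem_insert, mem_singleton]
      omega
    have h5 := card_le_card h4
    have h6 : ({(m : ℤ), -(m : ℤ)} : Finset ℤ).card ≤ 2 := Finset.card_le_two
    exact_mod_cast h5.trans h6
  rw [h1]
  refine (Finset.sum_le_sum h2).trans ?_
  rw [← Finset.mul_sum, div_eq_mul_inv]
  refine mul_le_mul_of_nonneg_left ?_ (by norm_num)
  rw [← tsum_geometric_of_lt_one hr hr1]
  exact (summable_geometric_of_lt_one hr hr1).sum_le_tsum _ (fun _ _ => by positivity)

variable {μ : ℕ}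

theorem reps1 (κ : ℝ) (hκ : 0 < κ) (j : ℕ) (a : ZMod (2 ^ μ)) :
    ∑ b ∈ ({b | rnd j b = b} : Finset (ZMod (2 ^ μ))), Real.exp (-(κ * ((cd a b : ℝ) / 2 ^ j))) ≤
      Real.exp κ * (2 / (1 - Real.exp (-κ))) := by
  classical
  have hr1 : Real.exp (-κ) < 1 := by
    rw [Real.exp_lt_one_iff]
    linarith
  have hr0 : 0 < Real.exp (-κ) := Real.exp_pos _
  rcases Nat.lt_or_ge μ j with h | h
  · have h1 : ({b | rnd j b = b} : Finset (ZMod (2 ^ μ))) ⊆ {0} := by
      intro b hb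
      rw [mem_filter] at hb
      rw [mem_singleton, ← hb.2]
      unfold rnd
      rw [Nat.div_eq_of_lt, zero_mul, Nat.cast_zero]
      exact lt_of_lt_of_le (ZMod.val_lt b) (Nat.pow_le_pow_right (by norm_num) h.le)
    refine (Finset.sum_le_sum_of_subset_of_nonneg h1 (fun _ _ _ => (Real.exp_pos _).le)).trans ?_
    rw [Finset.sum_singleton]
    have h2 : Real.exp (-(κ * ((cd a 0 : ℝ) / 2 ^ j))) ≤ 1 := by
      rw [Real.exp_le_one_iff]
      have : 0 ≤ κ * ((cd a 0 : ℝ) / 2 ^ j) := by positivity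
      linarith
    have h3 : (1 : ℝ) ≤ Real.exp κ := Real.one_le_exp hκ.le
    have h4 : (1 : ℝ) ≤ 2 / (1 - Real.exp (-κ)) := by
      rw [le_div_iff₀ (by linarith)]
      linarith
    nlinarith
  · -- the quotient
    let q : ZMod (2 ^ μ) → ℤ := fun b => (a - b).valMinAbs / 2 ^ j
    have hp : (0 : ℤ) < 2 ^ j := by positivity
    have hmod : ∀ b ∈ ({b | rnd j b = b} : Finset (ZMod (2 ^ μ))),
        (a - b).valMinAbs % 2 ^ j = (a.val : ℤ) % 2 ^ j := by
      intro b hb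
      rw [mem_filter] at hb
      have h1 : b.val = b.val / 2 ^ j * 2 ^ j := by
        have := val_rnd j b
        rw [hb.2] at this
        exact this
      -- `k ≡ a - b` modulo `2 ^ μ`, so modulo `2 ^ j`
      have h2 : (((a - b).valMinAbs : ℤ) : ZMod (2 ^ μ)) = (((a.val : ℤ) - b.val : ℤ) : ZMod (2 ^ μ)) := by
        rw [ZMod.coe_valMinAbs]
        push_cast
        simp
      have h3 := (ZMod.intCast_eq_intCast_iff _ _ _).1 h2
      have h4 : (a - b).valMinAbs ≡ (a.val : ℤ) - b.val [ZMOD ((2 ^ j : ℕ) : ℤ)] := by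
        refine h3.of_dvd ?_
        exact_mod_cast pow_dvd_pow 2 h
      have h5 : (b.val : ℤ) = (b.val / 2 ^ j : ℕ) * 2 ^ j := by exact_mod_cast h1
      have h6 : (a - b).valMinAbs % ((2 ^ j : ℕ) : ℤ) = ((a.val : ℤ) - b.val) % ((2 ^ j : ℕ) : ℤ) := h4
      push_cast at h6
      rw [h6, h5, Int.sub_mul_emod_self_right]
    have hinj : Set.InjOn q (({b | rnd j b = b} : Finset (ZMod (2 ^ μ))) : Set (ZMod (2 ^ μ))) := by
      intro b hb b' hb' hq
      have h1 := hmod b (mem_coe.1 hb)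
      have h2 := hmod b' (mem_coe.1 hb')
      have h3 := Int.emod_add_mul_ediv (a - b).valMinAbs (2 ^ j)
      have h4 := Int.emod_add_mul_ediv (a - b').valMinAbs (2 ^ j)
      have hq' : (a - b).valMinAbs / 2 ^ j = (a - b').valMinAbs / 2 ^ j := hq
      have h5 : (a - b).valMinAbs = (a - b').valMinAbs := by
        rw [← h3, ← h4, h1, h2, hq']
      have h6 := ZMod.injective_valMinAbs h5
      exact sub_right_injective h6
    have hterm : ∀ b ∈ ({b | rnd j b = b} : Finset (ZMod (2 ^ μ))),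
        Real.exp (-(κ * ((cd a b : ℝ) / 2 ^ j))) ≤
          Real.exp κ * Real.exp (-κ) ^ (q b).natAbs := by
      intro b _
      rw [← Real.exp_nat_mul, ← Real.exp_add, Real.exp_le_exp]
      have h3 := Int.emod_add_mul_ediv (a - b).valMinAbs (2 ^ j)
      have h4 := Int.emod_nonneg (a - b).valMinAbs hp.ne'
      have h5 := Int.emod_lt_of_pos (a - b).valMinAbs hp
      have h6 : ((q b).natAbs : ℤ) * 2 ^ j ≤ (cd a b : ℤ) + 2 ^ j := by
        show (((a - b).valMinAbs / 2 ^ j).natAbs : ℤ) * 2 ^ j ≤ (((a - b).valMinAbs.natAbs : ℕ) : ℤ) + 2 ^ j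
        rw [Int.natCast_natAbs, Int.natCast_natAbs]
        have h7 : |(a - b).valMinAbs / 2 ^ j| * 2 ^ j = |(a - b).valMinAbs / 2 ^ j * 2 ^ j| := by
          rw [abs_mul, abs_of_pos hp]
        rw [h7]
        have h8 : (a - b).valMinAbs / 2 ^ j * 2 ^ j = (a - b).valMinAbs - (a - b).valMinAbs % 2 ^ j := by
          linarith
        rw [h8]
        have h9 := abs_sub (a - b).valMinAbs ((a - b).valMinAbs % 2 ^ j)
        rw [abs_of_nonneg h4] at h9
        linarith
      have h7 : ((q b).natAbs : ℝ) * 2 ^ j ≤ (cd a b : ℝ) + 2 ^ j := by exact_mod_cast h6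
      have h8 : (0 : ℝ) < 2 ^ j := by positivity
      have h9 : ((q b).natAbs : ℝ) ≤ (cd a b : ℝ) / 2 ^ j + 1 := by
        rw [div_add_one h8.ne', le_div_iff₀ h8]
        exact h7
      have h10 := mul_le_mul_of_nonneg_left h9 hκ.le
      linarith
    refine (Finset.sum_le_sum hterm).trans ?_
    rw [← Finset.mul_sum]
    refine mul_le_mul_of_nonneg_left ?_ (Real.exp_pos _).le
    have h1 : ∑ b ∈ ({b | rnd j b = b} : Finset (ZMod (2 ^ μ))), Real.exp (-κ) ^ (q b).natAbs =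
        ∑ z ∈ ({b | rnd j b = b} : Finset (ZMod (2 ^ μ))).image q, Real.exp (-κ) ^ z.natAbs := by
      rw [Finset.sum_image hinj]
    rw [h1]
    exact int_sum _ hr0.le hr1 _

/-- PSI: the sum over the blocks (represented by their corners) of `exp (-κ D(x, B) / L n)` is bounded. -/
theorem psi_le (d μ : ℕ) (l ρ : ℕ → ℕ) (J N : ℕ) (κ : ℝ) (hκ : 0 < κ) (n : ℕ)
    (x : Fin d → ZMod (2 ^ μ)) :
    ∑ B ∈ ({B | (geoT d μ l ρ J N).bl n B = B} : Finset (Fin d → ZMod (2 ^ μ))),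
      Real.exp (-(κ * (((geoT d μ l ρ J N).D x B : ℝ) / ((geoT d μ l ρ J N).L n : ℝ)))) ≤
      (Real.exp (κ / (d + 1)) * (2 / (1 - Real.exp (-(κ / (d + 1)))))) ^ d := by
  classical
  have hd : (0 : ℝ) < (d : ℝ) + 1 := by positivity
  have hκd : 0 < κ / (d + 1) := by positivity
  have hsub : ({B | (geoT d μ l ρ J N).bl n B = B} : Finset (Fin d → ZMod (2 ^ μ))) ⊆
      Fintype.piFinset (fun _ : Fin d => ({b | rnd (l n) b = b} : Finset (ZMod (2 ^ μ)))) := by
    intro B hB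
    rw [mem_filter] at hB
    rw [Fintype.mem_piFinset]
    intro i
    rw [mem_filter]
    exact ⟨mem_univ _, congrFun hB.2 i⟩
  have hterm : ∀ B : Fin d → ZMod (2 ^ μ),
      Real.exp (-(κ * (((geoT d μ l ρ J N).D x B : ℝ) / ((geoT d μ l ρ J N).L n : ℝ)))) ≤
        ∏ i, Real.exp (-(κ / (d + 1) * ((cd (x i) (B i) : ℝ) / 2 ^ l n))) := by
    intro B
    rw [← Real.exp_sum, Real.exp_le_exp, Finset.sum_neg_distrib, neg_le_neg_iff, ← Finset.mul_sum,
      ← Finset.sum_div]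
    have h1 : ∑ i : Fin d, (cd (x i) (B i) : ℝ) ≤ d * (sd x B : ℝ) := by
      calc ∑ i : Fin d, (cd (x i) (B i) : ℝ) ≤ ∑ _i : Fin d, (sd x B : ℝ) :=
            Finset.sum_le_sum fun i _ => by exact_mod_cast le_sd x B i
        _ = _ := by
            rw [Finset.sum_const, Finset.card_univ, Fintype.card_fin, nsmul_eq_mul]
    have h2 : ∑ i : Fin d, (cd (x i) (B i) : ℝ) ≤ (d + 1) * (sd x B : ℝ) := by
      have : (0 : ℝ) ≤ sd x B := by positivity
      linarith
    have h3 : (0 : ℝ) < 2 ^ l n := by positivity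
    have h4 : ((geoT d μ l ρ J N).L n : ℝ) = 2 ^ l n := by
      show (((2 ^ l n : ℕ)) : ℝ) = 2 ^ l n
      push_cast
      rfl
    have h5 : ((geoT d μ l ρ J N).D x B : ℝ) = (sd x B : ℝ) := rfl
    rw [h4, h5]
    calc κ / (d + 1) * ((∑ i : Fin d, (cd (x i) (B i) : ℝ)) / 2 ^ l n)
        ≤ κ / (d + 1) * (((d + 1) * (sd x B : ℝ)) / 2 ^ l n) := by
          refine mul_le_mul_of_nonneg_left ?_ hκd.le
          exact div_le_div_of_nonneg_right h2 h3.le
      _ = _ := by
          field_simp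
  calc ∑ B ∈ ({B | (geoT d μ l ρ J N).bl n B = B} : Finset (Fin d → ZMod (2 ^ μ))),
      Real.exp (-(κ * (((geoT d μ l ρ J N).D x B : ℝ) / ((geoT d μ l ρ J N).L n : ℝ))))
      ≤ ∑ B ∈ ({B | (geoT d μ l ρ J N).bl n B = B} : Finset (Fin d → ZMod (2 ^ μ))),
        ∏ i, Real.exp (-(κ / (d + 1) * ((cd (x i) (B i) : ℝ) / 2 ^ l n))) :=
        Finset.sum_le_sum fun B _ => hterm B
    _ ≤ ∑ B ∈ Fintype.piFinset (fun _ : Fin d => ({b | rnd (l n) b = b} : Finset (ZMod (2 ^ μ)))),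
        ∏ i, Real.exp (-(κ / (d + 1) * ((cd (x i) (B i) : ℝ) / 2 ^ l n))) :=
        Finset.sum_le_sum_of_subset_of_nonneg hsub
          (fun _ _ _ => Finset.prod_nonneg fun _ _ => (Real.exp_pos _).le)
    _ = ∏ i : Fin d, ∑ b ∈ ({b | rnd (l n) b = b} : Finset (ZMod (2 ^ μ))),
        Real.exp (-(κ / (d + 1) * ((cd (x i) b : ℝ) / 2 ^ l n))) :=
        (Finset.prod_univ_sum
          (fun _ : Fin d => ({b | rnd (l n) b = b} : Finset (ZMod (2 ^ μ))))
          (fun i b => Real.exp (-(κ / (d + 1) * ((cd (x i) b : ℝ) / 2 ^ l n))))).symm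
    _ ≤ ∏ _i : Fin d, (Real.exp (κ / (d + 1)) * (2 / (1 - Real.exp (-(κ / (d + 1)))))) :=
        Finset.prod_le_prod (fun i _ => Finset.sum_nonneg fun _ _ => (Real.exp_pos _).le)
          (fun i _ => reps1 _ hκd _ _)
    _ = _ := by
        rw [Finset.prod_const, Finset.card_univ, Fintype.card_fin]

end Pool.Agent.ANP.H61
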