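import Pool.Agent.ANP.Stmts
import Pool.Agent.Helper61_ACN.Path

/-!
# The alive distance for a `Geo`
-/

set_option autoImplicit false

open Finset Pool.Agent.ACN

namespace Pool.Agent.ANP.H61

/-- every ball of radius `L i` contains at most `3 ^ d h` dead sites, if every block of level `i`
contains at most `h` -/
theorem ball_dead {X : Type} [Fintype X] [DecidableEq X] (Γ : Geo X) (d : ℕ) (hΓ : GeoOk Γ d)
    (i : ℕ) (S : Finset X) (h : ℕ) (hS : ∀ B, (S ∩ Γ.blk i B).card ≤ h) (x : X) :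
    (S.filter fun y => Γ.D x y ≤ Γ.L i).card ≤ 3 ^ d * h := by
  classical
  set T : Finset X := ({y | Γ.D x y ≤ Γ.L i} : Finset X).image (Γ.bl i) with hT
  have h1 : (S.filter fun y => Γ.D x y ≤ Γ.L i) ⊆ T.biUnion (fun B => S ∩ Γ.blk i B) := by
    intro y hy
    rw [mem_filter] at hy
    rw [mem_biUnion]
    refine ⟨Γ.bl i y, ?_, ?_⟩
    · rw [hT, mem_image]
      exact ⟨y, by rw [mem_filter]; exact ⟨mem_univ _, hy.2⟩, rfl⟩
    · rw [mem_inter, Geo.blk, mem_filter]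
      exact ⟨hy.1, mem_univ _, rfl⟩
  refine (card_le_card h1).trans ?_
  refine card_biUnion_le.trans ?_
  refine (Finset.sum_le_card_nsmul _ _ h (fun B _ => hS B)).trans ?_
  rw [smul_eq_mul]
  exact Nat.mul_le_mul_right _ (hΓ.meet i x)

/-- PTH: at most `h i` dead sites of super-stage `i` in each block of level `i`; then every walk from
`x` to `y` has at least `D x y / 2 - c` alive steps. -/
theorem pth {X : Type} [Fintype X] [DecidableEq X] (Γ : Geo X) (d : ℕ) (hΓ : GeoOk Γ d)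
    (hL : ∀ i, 1 ≤ Γ.L i) (adj : X → X → Prop) (hadj : ∀ x y, adj x y → Γ.D x y ≤ 1) (I : Finset ℕ)
    (dd : ℕ → Finset X) (h : ℕ → ℕ) (hdd : ∀ i ∈ I, ∀ B, (dd i ∩ Γ.blk i B).card ≤ h i)
    (hsum : ∑ i ∈ I, (3 ^ d * h i : ℝ) / Γ.L i ≤ 1 / 4)
    (x y : X) (l : List X) (hl : IsWalk adj x y l) :
    (1 / 2 : ℝ) * Γ.D x y - (1 + 2 * ∑ i ∈ I, (3 ^ d * h i : ℝ)) ≤
      cost (↑(I.biUnion dd) : Set X) l := by
  classical
  have hU : (↑(I.biUnion dd) : Set X) = ⋃ i ∈ I, (↑(dd i) : Set X) := by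
    ext z
    simp
  have hle : ∑ i ∈ I, ((3 ^ d * h i : ℕ) : ℝ) / ((Γ.L i : ℕ) + 1) ≤ 1 / 4 := by
    refine le_trans ?_ hsum
    refine Finset.sum_le_sum ?_
    intro i _
    push_cast
    have h1 : (1 : ℝ) ≤ Γ.L i := by exact_mod_cast hL i
    refine div_le_div_of_nonneg_left (by positivity) (by linarith) (by linarith)
  have h0 := cost_add adj (fun x y => (Γ.D x y : ℝ)) (fun x => by simp [hΓ.self x])
    (fun x y z => by exact_mod_cast hΓ.tri x y z) (fun x y hxy => by exact_mod_cast hadj x y hxy) I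
    (fun i => (↑(dd i) : Set X)) Γ.L (fun i => 3 ^ d * h i)
    (fun i hi x => ⟨(dd i).filter fun y => Γ.D x y ≤ Γ.L i,
      ball_dead Γ d hΓ i (dd i) (h i) (hdd i hi) x, fun z hz hz2 => by
        rw [mem_filter]
        exact ⟨hz2, by exact_mod_cast hz⟩⟩) (by linarith) x y l hl
  rw [hU]
  refine le_trans ?_ h0
  push_cast at hle ⊢
  have h2 : (0 : ℝ) ≤ Γ.D x y := by positivity
  set S : ℝ := ∑ i ∈ I, (3 ^ d * h i : ℝ) / ((Γ.L i : ℝ) + 1) with hS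
  nlinarith

/-- PTW: the plateau weight. -/
theorem ptw {X : Type} [Fintype X] [DecidableEq X] (Γ : Geo X) (d : ℕ) (hΓ : GeoOk Γ d)
    (hL : ∀ i, 1 ≤ Γ.L i) (adj : X → X → Prop) (hsym : ∀ x y, adj x y → adj y x)
    (hadj : ∀ x y, adj x y → Γ.D x y ≤ 1) (I : Finset ℕ)
    (dd : ℕ → Finset X) (h : ℕ → ℕ) (hdd : ∀ i ∈ I, ∀ B, (dd i ∩ Γ.blk i B).card ≤ h i)
    (hsum : ∑ i ∈ I, (3 ^ d * h i : ℝ) / Γ.L i ≤ 1 / 4) (x : X) (N : ℕ) :
    ∃ φ : X → ℕ, φ x = 0 ∧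
      (∀ y, min (N : ℝ) ((1 / 2 : ℝ) * Γ.D x y - (1 + 2 * ∑ i ∈ I, (3 ^ d * h i : ℝ))) ≤ φ y) ∧
      (∀ y, φ y ≤ N) ∧ (∀ y z, adj y z → φ z ≤ φ y + 1) ∧
      (∀ y z, adj y z → (y ∈ I.biUnion dd ∨ z ∈ I.biUnion dd) → φ z = φ y) := by
  obtain ⟨φ, h1, h2, h3, h4, h5⟩ := plateau adj hsym (fun x y => (Γ.D x y : ℝ))
    (↑(I.biUnion dd) : Set X) (1 / 2) (1 + 2 * ∑ i ∈ I, (3 ^ d * h i : ℝ))
    (fun x y l hl => pth Γ d hΓ hL adj hadj I dd h hdd hsum x y l hl) x N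
  exact ⟨φ, h1, h2, h3, h4, fun y z hyz hd => h5 y z hyz (by simpa using hd)⟩

end Pool.Agent.ANP.H61
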