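import Pool.Agent.Helper61_ANP.Scn

/-!
# The scales: probabilities
-/

set_option autoImplicit false

open Finset Filter

noncomputable section

namespace Pool.Agent.ANP.H61

/-- the exponent of the probabilities -/
def AA (d a : ℕ) : ℕ := 2 * (d * (a + 2) + 1)

/-- the bound of the probability that a block of level `n` is bad -/
def qn (d C0 a m0 : ℕ) (e : ℕ → ℕ) (N n : ℕ) : ℝ := (1 / 2) ^ (AA d a * lt C0 a m0 e N n)

theorem half_pow (x y z : ℕ) (h : x + z ≤ y) : (2 : ℝ) ^ x * (1 / 2) ^ y ≤ (1 / 2) ^ z := by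
  obtain ⟨t, rfl⟩ := Nat.exists_eq_add_of_le h
  have h1 : (2 : ℝ) ^ x * (1 / 2) ^ (x + z + t) = (1 / 2) ^ z * (1 / 2) ^ t := by
    rw [pow_add, pow_add, ← mul_assoc, ← mul_assoc, ← mul_pow]
    norm_num
  rw [h1]
  have h2 : ((1 : ℝ) / 2) ^ t ≤ 1 := pow_le_one₀ (by norm_num) (by norm_num)
  have h3 : (0 : ℝ) ≤ (1 / 2) ^ z := by positivity
  nlinarith

theorem rec_exp (d a l l' : ℕ) (hl : 1 ≤ l) (hl2 : l' ≤ (a + 2) * l) :
    d * (l' - l) * (2 * a + 4 + 1) + (1 + AA d a * l') ≤ AA d a * l * (2 * a + 4 + 1) := by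
  have h1 : l' - l ≤ (a + 1) * l := by
    have : (a + 2) * l = (a + 1) * l + l := by ring
    omega
  have h2 : d * (l' - l) * (2 * a + 4 + 1) ≤ d * ((a + 1) * l) * (2 * a + 4 + 1) :=
    Nat.mul_le_mul_right _ (Nat.mul_le_mul_left _ h1)
  have h3 : AA d a * l' ≤ AA d a * ((a + 2) * l) := Nat.mul_le_mul_left _ hl2
  have h4 : d * ((a + 1) * l) * (2 * a + 4 + 1) + (1 + AA d a * ((a + 2) * l)) ≤
      AA d a * l * (2 * a + 4 + 1) := by
    unfold AA
    have h5 : 2 * (d * (a + 2) + 1) * l * (2 * a + 4 + 1) =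
        2 * (d * (a + 2) + 1) * ((a + 2) * l) + d * ((a + 1) * l) * (2 * a + 4 + 1) +
          (d * (3 * a + 7) * l + (2 * a + 6) * l) := by ring
    rw [h5]
    have h6 : 1 * 1 ≤ (2 * a + 6) * l := Nat.mul_le_mul (by omega) hl
    have h7 : 0 ≤ d * (3 * a + 7) * l := Nat.zero_le _
    omega
  omega

section prob

variable {v a C0 m0 : ℕ} {s : ℕ → ℝ} {e : ℕ → ℕ} (H : Sq v a s e) (d N : ℕ)
  (hC : 5 ≤ C0) (h3a : C0 + 1 ≤ 3 * a) (hv : C0 ≤ v) (hvm : m0 ≤ v)

include H hC hvm in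
/-- the recursion -/
theorem q_rec (n : ℕ) :
    (((2 ^ (lt C0 a m0 e N (n + 1) - lt C0 a m0 e N n)) ^ d : ℕ) * qn d C0 a m0 e N n : ℝ) ^
      (2 * a + 4 + 1) ≤ qn d C0 a m0 e N (n + 1) / 2 := by
  have hl := l_ge H (m0 := m0) N hC n
  have hv1 := H.v1
  have h1 := rec_exp d a (lt C0 a m0 e N n) (lt C0 a m0 e N (n + 1)) (by omega)
    (l_succ H N hC hvm n)
  unfold qn
  push_cast
  rw [mul_pow, ← pow_mul, ← pow_mul, ← pow_mul]
  have h2 := half_pow ((lt C0 a m0 e N (n + 1) - lt C0 a m0 e N n) * (d * (2 * a + 4 + 1)))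
    (AA d a * lt C0 a m0 e N n * (2 * a + 4 + 1)) (1 + AA d a * lt C0 a m0 e N (n + 1))
    (by
      have e1 : (lt C0 a m0 e N (n + 1) - lt C0 a m0 e N n) * (d * (2 * a + 4 + 1)) =
        d * (lt C0 a m0 e N (n + 1) - lt C0 a m0 e N n) * (2 * a + 4 + 1) := by ring
      rw [e1]
      exact h1)
  refine h2.trans (le_of_eq ?_)
  rw [pow_add, pow_one]
  ring

/-- blocks near the origin -/
theorem near_card {X : Type} [Fintype X] [DecidableEq X] (Γ : Geo X) (hΓ : GeoOk Γ d)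
    (hr : ∀ n, 8 * Γ.L n ≤ Γ.ρ (n + 1)) (h1 : ∀ n, 1 ≤ Γ.L n) (o : X) (n : ℕ) :
    (Γ.near o n).card ≤ (8 * Γ.ρ (n + 1)) ^ d := by
  have h2 : Γ.near o n ⊆ ({y | Γ.D o y ≤ 3 * Γ.ρ (n + 1) + 3 * Γ.L n} : Finset X) := by
    intro B hB
    rw [Geo.near, mem_filter] at hB
    obtain ⟨_, hB1, y, hy1, hy2⟩ := hB
    rw [mem_filter]
    refine ⟨mem_univ _, ?_⟩
    have h3 := hΓ.diam n y B (by rw [hy1, hB1])
    have h4 := hΓ.tri o y B
    omega
  refine (card_le_card h2).trans ((hΓ.vol _ _).trans ?_)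
  refine Nat.pow_le_pow_left ?_ d
  have := hr n
  have := h1 n
  omega

include H hC h3a hv hvm in
theorem near_q (J n : ℕ) (hn : n < N + 2) (o : Fin d → ZMod (2 ^ mt C0 a e N)) :
    (((geoT d (mt C0 a e N) (lt C0 a m0 e N) (fun n => 2 ^ rt C0 a m0 e N n) J N).near o n).card : ℝ) *
      qn d C0 a m0 e N n ≤ (1 / 2) ^ (n + 2 + 1) := by
  have hlr := lr H N hC h3a hv (m0 := m0)
  have hmono : Monotone (lt C0 a m0 e N) := lmono H N hC h3a hv hvm
  set Γ := geoT d (mt C0 a e N) (lt C0 a m0 e N) (fun n => 2 ^ rt C0 a m0 e N n) J N with hΓ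
  have hl := l_ge H (m0 := m0) N hC n
  have hv1 := H.v1
  have hlin := H.lin (n + 1)
  -- an exponent
  obtain ⟨x, hx1, hx2⟩ : ∃ x : ℕ, (Γ.near o n).card ≤ 2 ^ x ∧
      x + (n + 2 + 1) ≤ AA d a * lt C0 a m0 e N n := by
    rcases Nat.lt_or_ge n N with h | h
    · refine ⟨d * (3 + rt C0 a m0 e N (n + 1)), ?_, ?_⟩
      · have h1 := near_card d Γ (trg d _ _ _ hmono J N) (fun k => by
          show 8 * 2 ^ lt C0 a m0 e N k ≤ 2 ^ rt C0 a m0 e N (k + 1)
          have h8 : (8 : ℕ) = 2 ^ 3 := by norm_num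
          rw [h8, ← pow_add]
          exact Nat.pow_le_pow_right (by norm_num) (hlr k)) (fun k => Nat.one_le_two_pow) o n
        refine h1.trans (le_of_eq ?_)
        show (8 * 2 ^ rt C0 a m0 e N (n + 1)) ^ d = _
        have h8 : (8 : ℕ) = 2 ^ 3 := by norm_num
        rw [h8, ← pow_add, ← pow_mul, mul_comm]
      · rw [rt_of_le (show n + 1 ≤ N from h), lt_of_le h.le]
        have h2 := H.e2 (n + 1)
        have h3 : d * (3 + 3 * (e (n + 1 + 1) + 1)) ≤
            d * (6 + 3 * ((a + 1) * (e (n + 1) + 1))) := Nat.mul_le_mul_left _ (by omega)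
        have h4 : AA d a * (5 * (e (n + 1) + 1)) ≤ AA d a * (C0 * (e (n + 1) + 1)) :=
          Nat.mul_le_mul_left _ (Nat.mul_le_mul_right _ hC)
        have h5 : AA d a * (5 * (e (n + 1) + 1)) =
            d * (6 + 3 * ((a + 1) * (e (n + 1) + 1))) + 10 * (e (n + 1) + 1) +
              (d * (7 * a * (e (n + 1) + 1) + 17 * e (n + 1) + 11)) := by
          unfold AA
          ring
        have h6 : 0 ≤ d * (7 * a * (e (n + 1) + 1) + 17 * e (n + 1) + 11) := Nat.zero_le _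
        omega
    · refine ⟨d * mt C0 a e N, ?_, ?_⟩
      · have h1 : (Γ.near o n).card ≤ Fintype.card (Fin d → ZMod (2 ^ mt C0 a e N)) :=
          card_le_univ _
        refine h1.trans (le_of_eq ?_)
        rw [Fintype.card_fun, ZMod.card, Fintype.card_fin, ← pow_mul, mul_comm]
      · have h9 : mt C0 a e N ≤ a * lt C0 a m0 e N n := by
          rcases Nat.lt_or_ge N n with h' | h'
          · rw [lt_of_gt h']
            have : 1 * (mt C0 a e N + (n - N - 1) * (m0 + 3) + m0) ≤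
              a * (mt C0 a e N + (n - N - 1) * (m0 + 3) + m0) :=
              Nat.mul_le_mul_right _ (by have := H.a2; omega)
            omega
          · have : n = N := by omega
            subst this
            rw [lt_of_le le_rfl]
            unfold mt
            exact le_rfl
        have h10 : d * mt C0 a e N ≤ d * (a * lt C0 a m0 e N n) := Nat.mul_le_mul_left _ h9
        have h11 : AA d a * lt C0 a m0 e N n =
            d * (a * lt C0 a m0 e N n) + 2 * lt C0 a m0 e N n +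
              d * ((a + 4) * lt C0 a m0 e N n) := by
          unfold AA
          ring
        have h12 : n + 5 ≤ lt C0 a m0 e N n := by
          rcases Nat.lt_or_ge N n with h' | h'
          · rw [lt_of_gt h']
            unfold mt
            have h5 : 5 * (e (N + 1) + 1) ≤ C0 * (e (N + 1) + 1) := Nat.mul_le_mul_right _ hC
            have h6 : 1 * (C0 * (e (N + 1) + 1)) ≤ a * (C0 * (e (N + 1) + 1)) :=
              Nat.mul_le_mul_right _ (by have := H.a2; omega)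
            have h7 := H.lin (N + 1)
            omega
          · rw [lt_of_le h']
            have h5 : 5 * (e (n + 1) + 1) ≤ C0 * (e (n + 1) + 1) := Nat.mul_le_mul_right _ hC
            omega
        have h13 : 0 ≤ d * ((a + 4) * lt C0 a m0 e N n) := Nat.zero_le _
        omega
  have h1 : ((Γ.near o n).card : ℝ) ≤ 2 ^ x := by exact_mod_cast hx1
  have h2 : (0 : ℝ) ≤ qn d C0 a m0 e N n := by
    unfold qn
    positivity
  refine (mul_le_mul_of_nonneg_right h1 h2).trans ?_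
  exact half_pow _ _ _ hx2

include H hC h3a hv hvm in
/-- the total probability -/
theorem phi_le (J : ℕ) (hJ : J = 2 * a + 4) (o : Fin d → ZMod (2 ^ mt C0 a e N)) :
    H72.Phi (geoT d (mt C0 a e N) (lt C0 a m0 e N) (fun n => 2 ^ rt C0 a m0 e N n) J N).ch J (N + 2)
      ((geoT d (mt C0 a e N) (lt C0 a m0 e N) (fun n => 2 ^ rt C0 a m0 e N n) J N).near o)
      (fun i => qn d C0 a m0 e N i.1 / 2) ≤ 1 / 4 := by
  have hmono : Monotone (lt C0 a m0 e N) := lmono H N hC h3a hv hvm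
  have hq0 : ∀ n, (0 : ℝ) ≤ qn d C0 a m0 e N n := fun n => by
    unfold qn
    positivity
  refine le_trans (H72.phi_start (t := fun n => qn d C0 a m0 e N n / 2)
    (q := qn d C0 a m0 e N)
    (K := fun n => (2 ^ (lt C0 a m0 e N (n + 1) - lt C0 a m0 e N n)) ^ d)
    (fun c => by have := hq0 c.1; positivity) (N + 2) _ (fun n B => le_rfl) (fun n B => ?_) ?_
    (fun n => ?_)) ?_
  · exact trm d (mt C0 a e N) (lt C0 a m0 e N) _ hmono J N n B
  · have := hq0 0
    linarith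
  · have h1 := q_rec H (m0 := m0) d N hC hvm n
    rw [hJ]
    linarith
  · refine (Finset.sum_le_sum fun n hn =>
      near_q H d N hC h3a hv hvm J n (mem_range.1 hn) o).trans ?_
    refine (geo_sum (N + 2) 2).trans ?_
    norm_num

include H hC in
/-- the probability of a failed trial -/
theorem pi_le (c0 Cp : ℝ) (h : ℕ) (hc0 : 0 ≤ c0) (kk : ℕ → ℕ)
    (hkk : ∀ n, kk (n + 1) ≤ kk n + h * (e (n + 1) + 2)) (E : ℕ)
    (hE : ∀ e : ℕ, E ≤ e → (Real.log (max Cp 1) +
      (2 + h + (d + 1 + AA d a) * (C0 * (a + 2)) : ℕ)) * ((e : ℝ) + 1) ≤ (2 : ℝ) ^ (c0 * e))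
    (hvE : E ≤ v) (p : ℝ) (n : ℕ) (hn : n ≤ N) (hp0 : 0 ≤ p)
    (hp : p ≤ Cp * Real.exp (-(s n ^ (-c0)))) :
    p * ((kk (n + 1) : ℝ) - kk n + ((2 ^ lt C0 a m0 e N n : ℕ) : ℝ) ^ d) ≤
      qn d C0 a m0 e N n / 2 := by
  have h1 := rp_lo (s n) c0 (e n) (H.pos n) (H.hi n) hc0
  have h2 := hE (e n) (hvE.trans (H.ge n))
  have hl : lt C0 a m0 e N n = C0 * (e (n + 1) + 1) := lt_of_le hn
  set l := lt C0 a m0 e N n with hldef
  have hl2 : l ≤ C0 * (a + 2) * (e n + 1) := by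
    rw [hl, mul_assoc]
    refine Nat.mul_le_mul_left _ ?_
    have h3 := H.e2 n
    have : (a + 2) * (e n + 1) = (a + 1) * (e n + 1) + (e n + 1) := by ring
    omega
  have hel : e (n + 1) + 2 ≤ 2 ^ l := by
    have h3 : e (n + 1) + 1 < 2 ^ (e (n + 1) + 1) := Nat.lt_two_pow_self
    have h4 : (2 : ℕ) ^ (e (n + 1) + 1) ≤ 2 ^ l := by
      refine Nat.pow_le_pow_right (by norm_num) ?_
      rw [hl]
      exact Nat.le_mul_of_pos_left _ (by omega)
    omega
  -- the number of trials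
  have hnum : ((kk (n + 1) : ℝ) - kk n + ((2 ^ l : ℕ) : ℝ) ^ d) ≤ 2 ^ (1 + h + (d + 1) * l) := by
    have h5 : ((kk (n + 1) : ℝ) - kk n) ≤ h * ((e (n + 1) : ℝ) + 2) := by
      have : ((kk (n + 1) : ℕ) : ℝ) ≤ ((kk n + h * (e (n + 1) + 2) : ℕ) : ℝ) := by
        exact_mod_cast hkk n
      push_cast at this
      linarith
    have h6 : (h : ℝ) ≤ 2 ^ h := by exact_mod_cast (Nat.lt_two_pow_self (n := h)).le
    have h7 : ((e (n + 1) : ℝ) + 2) ≤ 2 ^ l := by exact_mod_cast hel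
    have h8 : (h : ℝ) * ((e (n + 1) : ℝ) + 2) ≤ 2 ^ h * 2 ^ l :=
      mul_le_mul h6 h7 (by positivity) (by positivity)
    have h9 : (2 : ℝ) ^ h * 2 ^ l ≤ 2 ^ (h + (d + 1) * l) := by
      rw [← pow_add]
      refine pow_le_pow_right₀ (by norm_num) ?_
      have : 1 * l ≤ (d + 1) * l := Nat.mul_le_mul_right _ (by omega)
      omega
    have h10 : ((2 ^ l : ℕ) : ℝ) ^ d ≤ 2 ^ (h + (d + 1) * l) := by
      push_cast
      rw [← pow_mul]
      refine pow_le_pow_right₀ (by norm_num) ?_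
      have : (d + 1) * l = l * d + l := by ring
      omega
    have h11 : (2 : ℝ) ^ (1 + h + (d + 1) * l) = 2 * 2 ^ (h + (d + 1) * l) := by
      rw [add_assoc, pow_add, pow_one]
    rw [h11]
    linarith
  -- the exponential
  have hexp : max Cp 1 * 2 ^ (2 + h + (d + 1 + AA d a) * l) ≤ Real.exp (s n ^ (-c0)) := by
    have hm : 0 < max Cp 1 := lt_max_of_lt_right one_pos
    have hlog0 : 0 ≤ Real.log (max Cp 1) := Real.log_nonneg (le_max_right _ _)
    have h3 : max Cp 1 * 2 ^ (2 + h + (d + 1 + AA d a) * l) =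
        Real.exp (Real.log (max Cp 1) + ((2 + h + (d + 1 + AA d a) * l : ℕ) : ℝ) * Real.log 2) := by
      rw [Real.exp_add, Real.exp_log hm, mul_comm (((2 + h + (d + 1 + AA d a) * l : ℕ) : ℝ)),
        Real.exp_mul, Real.exp_log (by norm_num), Real.rpow_natCast]
    rw [h3, Real.exp_le_exp]
    refine le_trans ?_ h1
    refine le_trans ?_ h2
    have h4 : ((2 + h + (d + 1 + AA d a) * l : ℕ) : ℝ) ≤
        ((2 + h + (d + 1 + AA d a) * (C0 * (a + 2)) : ℕ) : ℝ) * ((e n : ℝ) + 1) := by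
      have h5 : 2 + h + (d + 1 + AA d a) * l ≤
          (2 + h + (d + 1 + AA d a) * (C0 * (a + 2))) * (e n + 1) := by
        have h6 : (d + 1 + AA d a) * l ≤ (d + 1 + AA d a) * (C0 * (a + 2) * (e n + 1)) :=
          Nat.mul_le_mul_left _ hl2
        have h7 : (2 + h + (d + 1 + AA d a) * (C0 * (a + 2))) * (e n + 1) =
            (2 + h) * (e n + 1) + (d + 1 + AA d a) * (C0 * (a + 2) * (e n + 1)) := by ring
        have h8 : (2 + h) * 1 ≤ (2 + h) * (e n + 1) := Nat.mul_le_mul_left _ (by omega)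
        omega
      exact_mod_cast h5
    have hlog2 : Real.log 2 ≤ 1 := by
      have := Real.log_two_lt_d9
      linarith
    have hlog2' : 0 ≤ Real.log 2 := Real.log_nonneg (by norm_num)
    have h9 : (0 : ℝ) ≤ ((2 + h + (d + 1 + AA d a) * l : ℕ) : ℝ) := by positivity
    have h10 : (0 : ℝ) ≤ e n := by positivity
    nlinarith
  have hCp : Cp ≤ max Cp 1 := le_max_left _ _
  have hnum0 : (0 : ℝ) ≤ (kk (n + 1) : ℝ) - kk n + ((2 ^ l : ℕ) : ℝ) ^ d ∨
      (kk (n + 1) : ℝ) - kk n + ((2 ^ l : ℕ) : ℝ) ^ d < 0 := le_or_gt _ _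
  have hpe : p ≤ max Cp 1 * Real.exp (-(s n ^ (-c0))) :=
    hp.trans (mul_le_mul_of_nonneg_right hCp (Real.exp_pos _).le)
  calc p * ((kk (n + 1) : ℝ) - kk n + ((2 ^ l : ℕ) : ℝ) ^ d)
      ≤ p * 2 ^ (1 + h + (d + 1) * l) := mul_le_mul_of_nonneg_left hnum hp0
    _ ≤ max Cp 1 * Real.exp (-(s n ^ (-c0))) * 2 ^ (1 + h + (d + 1) * l) :=
        mul_le_mul_of_nonneg_right hpe (by positivity)
    _ ≤ qn d C0 a m0 e N n / 2 := by
        rw [Real.exp_neg]
        have hX : 0 < Real.exp (s n ^ (-c0)) := Real.exp_pos _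
        rw [mul_right_comm, ← div_eq_mul_inv, div_le_iff₀ hX]
        unfold qn
        rw [← hldef]
        have h12 : (1 / 2 : ℝ) ^ (AA d a * l) / 2 * (max Cp 1 * 2 ^ (2 + h + (d + 1 + AA d a) * l)) =
            max Cp 1 * 2 ^ (1 + h + (d + 1) * l) := by
          have h13 : (2 : ℝ) ^ (2 + h + (d + 1 + AA d a) * l) =
              2 * 2 ^ (1 + h + (d + 1) * l) * 2 ^ (AA d a * l) := by
            rw [mul_assoc, ← pow_add, mul_comm (2 : ℝ), ← pow_succ]
            congr 1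
            ring
          rw [h13, one_div, inv_pow]
          field_simp
        rw [← h12]
        exact mul_le_mul_of_nonneg_left hexp (by positivity)

end prob

end Pool.Agent.ANP.H61
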