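import Pool.Agent.AND2B.Top
import Pool.Agent.Helper61_ANP.Scp

/-!
# AND2B: THE SCALES EXIST
-/

set_option autoImplicit false

open Finset Filter

open scoped NNReal

noncomputable section

namespace Pool.Agent.ANP.H61

open Pool.Agent.AND2B

theorem scl : SclStmt := by
  intro d th c₁ hd hth hth1 hc₁
  obtain ⟨c1, hc1def⟩ : ∃ c1, c1 = min c₁ 1 := ⟨_, rfl⟩
  have hc1 : 0 < c1 := by rw [hc1def]; exact lt_min hc₁ one_pos
  have hc1le : c1 ≤ c₁ := by rw [hc1def]; exact min_le_left _ _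
  have hc1le1 : c1 ≤ 1 := by rw [hc1def]; exact min_le_right _ _
  have hθ : (0 : ℝ) < th := by
    have h1 : (0 : ℝ≥0) < th := lt_of_lt_of_le (by norm_num) hth
    exact_mod_cast h1
  have hθ1 : (th : ℝ) < 1 := by exact_mod_cast hth1
  -- the ratio
  obtain ⟨a0, ha0⟩ := exists_nat_ge (((d * 5 + 1 : ℕ) : ℝ) / c1)
  obtain ⟨a, hadef⟩ : ∃ a, a = max (d + 2) a0 := ⟨_, rfl⟩
  have had : d + 2 ≤ a := by rw [hadef]; exact le_max_left _ _
  have ha2 : 2 ≤ a := by omega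
  have haa : ((d * 5 + 1 : ℕ) : ℝ) ≤ c1 * a := by
    have h1 : (a0 : ℝ) ≤ a := by rw [hadef]; exact_mod_cast le_max_right _ _
    rw [div_le_iff₀ hc1] at ha0
    nlinarith
  obtain ⟨J, hJ⟩ : ∃ J, J = 2 * a + 4 := ⟨_, rfl⟩
  refine ⟨6, a, J, ha2, fun β hβ => ?_⟩
  -- the number of stages
  obtain ⟨h, hh⟩ := exists_pow_lt_of_lt_one (show (0 : ℝ) < 1 / 2 by norm_num) hθ1
  -- growth
  obtain ⟨E1, hE1⟩ := growth (5 / 4 - 6 / 5) (by norm_num) (((3 ^ d * J : ℕ) : ℝ) + 1)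
  obtain ⟨E2, hE2⟩ := growth (13 / 10 - 5 / 4) (by norm_num) (2 * 3 ^ d : ℝ)
  obtain ⟨E3, hE3⟩ := growth β hβ (Real.log (max 1 1) +
      (2 + h + (d + 1 + AA d a) * (5 * (a + 2)) : ℕ))
  obtain ⟨m0, hm0⟩ : ∃ m0, m0 = 104 * (3 ^ d * J) := ⟨_, rfl⟩
  obtain ⟨v, hv⟩ : ∃ v, v = 5 + (2 * d + 2) + m0 + (3 ^ d * J) ^ 2 * 2 ^ (3 * d + d * 5) +
    E1 + E2 + E3 := ⟨_, rfl⟩
  refine ⟨min th (1 / 2 ^ v), lt_min hθ (by positivity), (min_le_left _ _).trans hθ1.le,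
    fun w t M₀ hw hw1 ht => ?_⟩
  have hwr : (0 : ℝ) < w := by exact_mod_cast hw
  have hwθ : (w : ℝ) ≤ th := hw1.trans (min_le_left _ _)
  have hwv : (w : ℝ) * 2 ^ v ≤ 1 := by
    have h1 := hw1.trans (min_le_right _ _)
    rwa [le_div_iff₀ (by positivity)] at h1
  obtain ⟨kk, e, HK⟩ := exists_kq (w : ℝ) th v a ha2 (by omega) hθ hθ1 hwr hwθ hwv
  obtain ⟨N1, hN1⟩ := exists_pow_lt_of_lt_one ht (show (1 / 2 : ℝ) < 1 by norm_num)
  obtain ⟨N, hN⟩ : ∃ N, N = N1 + M₀ := ⟨_, rfl⟩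
  have H := HK.sq
  obtain ⟨s, hs⟩ : ∃ s : ℕ → ℝ, s = fun n => (w : ℝ) * (th : ℝ) ^ kk n := ⟨_, rfl⟩
  rw [← hs] at H
  have hsg : ∀ n, sg w th kk n = s n := by
    intro n
    rw [hs]
    unfold sg cl
    push_cast
    rfl
  have hC : 5 ≤ 5 := le_rfl
  have h3a : 5 + 1 ≤ 3 * a := by omega
  have hv5 : 5 ≤ v := by omega
  have hvm : m0 ≤ v := by omega
  have hvc : (3 ^ d * J) ^ 2 * 2 ^ (3 * d + d * 5) ≤ v := by omega
  have hvd : 2 * d + 2 ≤ v := by omega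
  have hlin := H.lin
  have hmono : Monotone (lt 5 a m0 e N) := lmono H N hC h3a hv5 hvm
  have hDl : ∀ n ≤ N, ((DN d J 5 a m0 (6 / 5) s e N n : ℕ) : ℝ) ≤ s (n + 1) ^ (-(5 / 4 : ℝ)) :=
    fun n hn => dn_le H d J N c1 (6 / 5) (5 / 4) hc1.le (by linarith) (by norm_num) haa hvc E1 hE1
      (by omega) n hn
  have hDs := dsum H (m0 := m0) d J N (6 / 5) (5 / 4) (by norm_num) hC (by norm_num) (by omega) hvd
    hvc hDl
  have hDc := dcon H (m0 := m0) (C0 := 5) d J N (6 / 5) (5 / 4) (13 / 10) (by norm_num) (by norm_num)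
    E2 hE2 (by omega) hDl N le_rfl
  have hDm := dcon_last H (m0 := m0) (C0 := 5) d J N (6 / 5) (13 / 10) hC had (by norm_num)
    (by norm_num) hvd hvc hDc
  have hkk : ∀ n, kk (n + 1) ≤ kk n + h * (e (n + 1) + 2) := fun n =>
    kq_count (w : ℝ) th v a h kk e hθ hθ1 hh.le hwr (hwθ.trans hθ1.le) HK n
  have hpf0 : ∀ n, 0 ≤ pf w th kk β N n := fun n => by
    unfold pf
    split_ifs <;> positivity
  have hnum0 : ∀ n, 0 ≤ ((kk (n + 1) : ℝ) - kk n + ((2 ^ lt 5 a m0 e N n : ℕ) : ℝ) ^ d) := by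
    intro n
    have h1 : (kk n : ℝ) ≤ kk (n + 1) := by exact_mod_cast (HK.kks n).le
    have h2 : (0 : ℝ) ≤ ((2 ^ lt 5 a m0 e N n : ℕ) : ℝ) ^ d := by positivity
    linarith
  have hq0 : ∀ n, 0 ≤ qn d 5 a m0 e N n := fun n => by
    unfold qn
    positivity
  have hq1 : ∀ n, qn d 5 a m0 e N n ≤ 1 := fun n => by
    unfold qn
    exact pow_le_one₀ (by norm_num) (by norm_num)
  have hpi : ∀ n, pf w th kk β N n *
      ((kk (n + 1) : ℝ) - kk n + ((2 ^ lt 5 a m0 e N n : ℕ) : ℝ) ^ d) ≤ qn d 5 a m0 e N n / 2 := by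
    intro n
    rcases Nat.lt_or_ge N n with hn | hn
    · unfold pf
      rw [if_neg (by omega), zero_mul]
      have := hq0 n
      linarith
    · refine pi_le H (m0 := m0) d N hC β 1 h hβ.le kk hkk E3 hE3 (by omega) _ n hn (hpf0 n) ?_
      unfold pf
      rw [if_pos hn, hsg, one_mul]
  have hphi := phi_le H (m0 := m0) d N hC h3a hv5 hvm J hJ 0
  refine ⟨N, mt 5 a e N, kk, lt 5 a m0 e N, rt 5 a m0 e N, KN (6 / 5) s N,
    DN d J 5 a m0 (6 / 5) s e N, ?_, ?_⟩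
  · -- M₀
    have h1 : M₀ ≤ mt 5 a e N := by
      unfold mt
      have h2 : 1 * (5 * (e (N + 1) + 1)) ≤ a * (5 * (e (N + 1) + 1)) :=
        Nat.mul_le_mul_right _ (by omega)
      have h3 := hlin (N + 1)
      omega
    exact h1.trans (Nat.lt_two_pow_self).le
  have hs1 : ∀ n, s n ≤ 1 := H.le_one
  have hmtN : (2 : ℝ) ^ mt 5 a e N = (2 : ℝ) ^ ((a : ℝ) * (5 * ((e (N + 1) : ℝ) + 1))) := by
    rw [← Real.rpow_natCast]
    unfold mt
    push_cast
    rfl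
  refine
    { k0 := HK.kk0
      km := HK.kks
      low := fun n _ => ?_
      up := fun n _ => ?_
      fin := ?_
      lm := hmono
      rlow := fun n hn => ?_
      rup := fun n hn => ?_
      llow := fun n hn => ?_
      lup := fun n hn => ?_
      lN := ?_
      rN := ?_
      mN := ?_
      mU := ?_
      clu := fun n hn1 hn => ?_
      scl := ?_
      kn := fun n hn => ?_
      d0 := ?_
      dl := fun n hn => ?_
      dn := fun n hn => ?_
      ds := ?_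
      dM := ?_
      pi := fun n _ => ?_
      phi := ?_ }
  · rw [hsg, hsg, hs]
    exact HK.dn n
  · rw [hsg, hsg]
    have h1 : s (n + 1) ≤ s n ^ a := by
      rw [hs]
      exact HK.up n
    exact h1.trans (pow_le_pow_of_le_one (H.pos n).le (hs1 n) (by omega))
  · rw [hsg]
    have h1 := H.hi (N + 1)
    have h2 := hlin (N + 1)
    have h3 : (1 / 2 : ℝ) ^ N1 * 2 ^ e (N + 1) ≥ 1 := by
      have h4 : (2 : ℝ) ^ N1 ≤ 2 ^ e (N + 1) := pow_le_pow_right₀ (by norm_num) (by omega)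
      have h5 : (1 / 2 : ℝ) ^ N1 * 2 ^ N1 = 1 := by
        rw [← mul_pow]
        norm_num
      have h6 : (0 : ℝ) ≤ (1 / 2) ^ N1 := by positivity
      nlinarith
    have h4 : (0 : ℝ) < 2 ^ e (N + 1) := by positivity
    have h5 : s (N + 1) * 2 ^ e (N + 1) ≤ (1 / 2 : ℝ) ^ N1 * 2 ^ e (N + 1) := by linarith
    exact (le_of_mul_le_mul_right h5 h4).trans hN1.le
  · rw [hsg, rt_of_le hn]
    refine (rp_hi (s (n + 1)) 3 (e (n + 1)) (H.pos _) (H.lo _) (by norm_num)).trans (le_of_eq ?_)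
    rw [← Real.rpow_natCast]
    push_cast
    rfl
  · rw [hsg, rt_of_le hn]
    refine le_trans ?_ (rp_lo (s (n + 1)) 4 (e (n + 1)) (H.pos _) (H.hi _) (by norm_num))
    rw [← Real.rpow_natCast]
    refine Real.rpow_le_rpow_of_exponent_le (by norm_num) ?_
    have h1 : (3 * (e (n + 1) + 1) : ℕ) ≤ 4 * e (n + 1) := by
      have := hlin (n + 1)
      omega
    exact_mod_cast h1
  · rw [hsg, lt_of_le hn]
    refine (rp_hi (s (n + 1)) 5 (e (n + 1)) (H.pos _) (H.lo _) (by norm_num)).trans (le_of_eq ?_)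
    rw [← Real.rpow_natCast]
    push_cast
    rfl
  · rw [hsg, lt_of_le hn]
    refine le_trans ?_ (rp_lo (s (n + 1)) 6 (e (n + 1)) (H.pos _) (H.hi _) (by norm_num))
    rw [← Real.rpow_natCast]
    refine Real.rpow_le_rpow_of_exponent_le (by norm_num) ?_
    have h1 : (5 * (e (n + 1) + 1) : ℕ) ≤ 6 * e (n + 1) := by
      have := hlin (n + 1)
      omega
    exact_mod_cast h1
  · have h1 : lt 5 a m0 e N N + 6 ≤ mt 5 a e N := by
      rw [lt_of_le le_rfl]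
      unfold mt
      have h2 : 2 * (5 * (e (N + 1) + 1)) ≤ a * (5 * (e (N + 1) + 1)) :=
        Nat.mul_le_mul_right _ ha2
      have h3 := hlin (N + 1)
      omega
    omega
  · rw [rt_of_gt (Nat.lt_succ_self N)]
    omega
  · rw [hsg]
    refine (rp_hi (s (N + 1)) 5 (e (N + 1)) (H.pos _) (H.lo _) (by norm_num)).trans ?_
    rw [hmtN]
    refine Real.rpow_le_rpow_of_exponent_le (by norm_num) ?_
    have h1 : (1 : ℝ) ≤ a := by exact_mod_cast (by omega : 1 ≤ a)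
    have h2 : (0 : ℝ) ≤ 5 * ((e (N + 1) : ℝ) + 1) := by positivity
    nlinarith
  · rw [hsg]
    refine le_trans ?_ (rp_lo (s (N + 1)) (6 * ((a : ℝ) + 1)) (e (N + 1)) (H.pos _) (H.hi _)
      (by positivity))
    rw [hmtN]
    refine Real.rpow_le_rpow_of_exponent_le (by norm_num) ?_
    have h1 : (5 : ℝ) ≤ e (N + 1) := by
      have h2 := hlin (N + 1)
      exact_mod_cast (by omega : 5 ≤ e (N + 1))
    have h2 : (0 : ℝ) ≤ a := by positivity
    nlinarith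
  · rw [hsg]
    obtain ⟨m, rfl⟩ : ∃ m, n = m + 1 := ⟨n - 1, by omega⟩
    have h1 := clu H (m0 := m0) (C0 := 5) d J N c1 hc1.le haa hvc m hn
    rw [Nat.add_sub_cancel]
    have h2 : s (m + 2) ^ (-c1) ≤ s (m + 2) ^ (-c₁) := rp_mono _ (H.pos _) (hs1 _) _ _ hc1le
    refine le_trans ?_ (h1.trans h2)
    have h3 : (3 ^ d * J) * (6 * 2 ^ lt 5 a m0 e N m + 1) ^ d ≤
        (3 ^ d * J) ^ 2 * (6 * 2 ^ lt 5 a m0 e N m + 1) ^ d := by
      refine Nat.mul_le_mul_right _ ?_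
      have h4 : 1 ≤ 3 ^ d * J := Nat.mul_pos (by positivity) (by omega)
      nlinarith
    exact_mod_cast h3
  · refine scl_scl H d J N _ hC h3a hv5 hvm (by omega) ?_
    rw [← hm0]
    exact (Nat.lt_two_pow_self).le
  · unfold KN
    rw [if_pos hn, hsg]
  · unfold DN
    rw [if_pos rfl]
  · rw [hsg]
    exact hDl n hn
  · have h1 : n ≠ 0 := by omega
    unfold DN
    rw [if_neg h1]
  · exact_mod_cast hDs
  · have h1 : (0 : ℝ) ≤ ∑ i ∈ range (N + 2), (3 ^ d * (DN d J 5 a m0 (6 / 5) s e N i : ℝ)) :=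
      Finset.sum_nonneg fun i _ => by positivity
    linarith
  · have h1 := hpi n
    have h2 := hq1 n
    linarith
  · refine le_trans (H72.phi_mono ?_ ?_ _ _) hphi
    · intro c
      exact mul_nonneg (hpf0 _) (hnum0 _)
    · intro c
      exact hpi c.1

end Pool.Agent.ANP.H61
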