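import Pool.Agent.ANP.StmtsD
import Pool.Agent.Helper61_ANP.Tor

/-!
# The scales
-/

set_option autoImplicit false

open Finset Filter

noncomputable section

namespace Pool.Agent.ANP.H61

/-! ### Calculus -/

theorem growth (c : ℝ) (hc : 0 < c) (B : ℝ) :
    ∃ E : ℕ, ∀ e : ℕ, E ≤ e → B * ((e : ℝ) + 1) ≤ (2 : ℝ) ^ (c * e) := by
  have hr : (1 : ℝ) < (2 : ℝ) ^ c := Real.one_lt_rpow (by norm_num) hc
  have h := tendsto_pow_const_div_const_pow_of_one_lt 1 hr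
  have hB : (0 : ℝ) < 2 * (|B| + 1) := by positivity
  have h2 : ∀ᶠ n : ℕ in atTop, (n : ℝ) ^ 1 / ((2 : ℝ) ^ c) ^ n < (2 * (|B| + 1))⁻¹ :=
    h.eventually (gt_mem_nhds (by positivity))
  obtain ⟨E, hE⟩ := eventually_atTop.1 h2
  refine ⟨max E 1, fun e he => ?_⟩
  have h3 := hE e (le_trans (le_max_left _ _) he)
  have h4 : (1 : ℝ) ≤ e := by exact_mod_cast le_trans (le_max_right _ _) he
  have h5 : (0 : ℝ) < ((2 : ℝ) ^ c) ^ e := by positivity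
  rw [pow_one, div_lt_iff₀ h5, inv_mul_eq_div, lt_div_iff₀ hB] at h3
  have h6 : (2 : ℝ) ^ (c * e) = ((2 : ℝ) ^ c) ^ e := by
    rw [← Real.rpow_natCast, ← Real.rpow_mul (by norm_num)]
  rw [h6]
  have h7 : B ≤ |B| := le_abs_self B
  have h8 : (0 : ℝ) ≤ |B| := abs_nonneg B
  nlinarith

theorem rp_lo (x c : ℝ) (e : ℕ) (hx : 0 < x) (hxe : x * 2 ^ e ≤ 1) (hc : 0 ≤ c) :
    (2 : ℝ) ^ (c * e) ≤ x ^ (-c) := by
  rw [Real.rpow_neg hx.le, ← Real.inv_rpow hx.le]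
  have h1 : (2 : ℝ) ^ e ≤ x⁻¹ := by
    rw [le_inv_comm₀ (by positivity) hx]
    rw [← one_div, le_div_iff₀ (by positivity)]
    exact hxe
  calc (2 : ℝ) ^ (c * e) = ((2 : ℝ) ^ e) ^ c := by
        rw [← Real.rpow_natCast, ← Real.rpow_mul (by norm_num), mul_comm]
    _ ≤ _ := Real.rpow_le_rpow (by positivity) h1 hc

theorem rp_hi (x c : ℝ) (e : ℕ) (hx : 0 < x) (hxe : 1 ≤ x * 2 ^ (e + 1)) (hc : 0 ≤ c) :
    x ^ (-c) ≤ (2 : ℝ) ^ (c * (e + 1)) := by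
  rw [Real.rpow_neg hx.le, ← Real.inv_rpow hx.le]
  have h1 : x⁻¹ ≤ (2 : ℝ) ^ (e + 1) := by
    rw [inv_le_comm₀ hx (by positivity)]
    rw [← one_div, div_le_iff₀ (by positivity)]
    exact hxe
  calc (x⁻¹) ^ c ≤ ((2 : ℝ) ^ (e + 1)) ^ c := Real.rpow_le_rpow (by positivity) h1 hc
    _ = _ := by
        rw [← Real.rpow_natCast, ← Real.rpow_mul (by norm_num), mul_comm]
        push_cast
        ring_nf

theorem rp_mono (x : ℝ) (hx : 0 < x) (hx1 : x ≤ 1) (p q : ℝ) (hpq : p ≤ q) : x ^ (-p) ≤ x ^ (-q) :=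
  Real.rpow_le_rpow_of_exponent_ge hx hx1 (by linarith)

theorem geo_sum (N k : ℕ) : ∑ i ∈ range N, (1 / 2 : ℝ) ^ (i + k + 1) ≤ (1 / 2) ^ k := by
  have h : ∑ i ∈ range N, (1 / 2 : ℝ) ^ (i + k + 1) = (1 / 2) ^ k * (1 - (1 / 2) ^ N) := by
    induction N with
    | zero => simp
    | succ N ih =>
      rw [sum_range_succ, ih]
      ring
  rw [h]
  have h1 : (0 : ℝ) ≤ (1 / 2) ^ N := by positivity
  have h2 : (0 : ℝ) ≤ (1 / 2) ^ k := by positivity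
  nlinarith

/-! ### The clocks -/

/-- the clocks `s n` at the starts of the super-stages, and the natural numbers `e n` with
`2 ^ -(e n + 1) ≤ s n ≤ 2 ^ -(e n)` -/
structure Sq (v a : ℕ) (s : ℕ → ℝ) (e : ℕ → ℕ) : Prop where
  a2 : 2 ≤ a
  v1 : 1 ≤ v
  pos : ∀ n, 0 < s n
  hi : ∀ n, s n * 2 ^ e n ≤ 1
  lo : ∀ n, 1 ≤ s n * 2 ^ (e n + 1)
  ev : v ≤ e 0
  e1 : ∀ n, a * e n ≤ e (n + 1)
  e2 : ∀ n, e (n + 1) ≤ (a + 1) * (e n + 1)
  anti : Antitone s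

/-- the clocks with the factor `θ` for each stage -/
structure Kq (w θ : ℝ) (v a : ℕ) (kk e : ℕ → ℕ) : Prop where
  kk0 : kk 0 = 0
  kks : ∀ n, kk n < kk (n + 1)
  up : ∀ n, w * θ ^ kk (n + 1) ≤ (w * θ ^ kk n) ^ a
  dn : ∀ n, (w * θ ^ kk n) ^ (a + 1) ≤ w * θ ^ kk (n + 1)
  sq : Sq v a (fun n => w * θ ^ kk n) e

theorem exists_kq (w θ : ℝ) (v a : ℕ) (ha : 2 ≤ a) (hv : 1 ≤ v) (hθ : 0 < θ) (hθ1 : θ < 1)
    (hw : 0 < w) (hwθ : w ≤ θ) (hw1 : w * 2 ^ v ≤ 1) : ∃ kk e : ℕ → ℕ, Kq w θ v a kk e := by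
  classical
  have hw1' : w < 1 := lt_of_le_of_lt hwθ hθ1
  have hex : ∀ k : ℕ, ∃ m : ℕ, w * θ ^ m ≤ (w * θ ^ k) ^ a := by
    intro k
    have h1 : 0 < (w * θ ^ k) ^ a / w := by positivity
    obtain ⟨m, hm⟩ := exists_pow_lt_of_lt_one h1 hθ1
    refine ⟨m, ?_⟩
    rw [lt_div_iff₀ hw] at hm
    linarith
  let nx : ℕ → ℕ := fun k => Nat.find (hex k)
  have hnx1 : ∀ k, w * θ ^ nx k ≤ (w * θ ^ k) ^ a := fun k => Nat.find_spec (hex k)
  have hs0 : ∀ k, 0 < w * θ ^ k := fun k => by positivity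
  have hs1 : ∀ k, w * θ ^ k ≤ w := fun k => by
    have := pow_le_one₀ (n := k) hθ.le hθ1.le
    nlinarith
  have hlt : ∀ k, (w * θ ^ k) ^ a < w * θ ^ k := by
    intro k
    have h1 : w * θ ^ k < 1 := lt_of_le_of_lt (hs1 k) hw1'
    exact pow_lt_self_of_lt_one₀ (hs0 k) h1 (by omega)
  have hnx2 : ∀ k, k < nx k := by
    intro k
    by_contra hcon
    push Not at hcon
    have h1 := hnx1 k
    have h2 : θ ^ k ≤ θ ^ nx k := pow_le_pow_of_le_one hθ.le hθ1.le hcon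
    have h3 : w * θ ^ k ≤ w * θ ^ nx k := mul_le_mul_of_nonneg_left h2 hw.le
    have := hlt k
    linarith
  have hnx3 : ∀ k, (w * θ ^ k) ^ (a + 1) ≤ w * θ ^ nx k := by
    intro k
    obtain ⟨m, hm⟩ : ∃ m, nx k = m + 1 := ⟨nx k - 1, by have := hnx2 k; omega⟩
    have h1 : ¬ (w * θ ^ m ≤ (w * θ ^ k) ^ a) := by
      refine Nat.find_min (hex k) ?_
      show m < nx k
      omega
    push Not at h1
    rw [hm, pow_succ, pow_succ θ m]
    have h2 : w * θ ^ k ≤ θ := (hs1 k).trans hwθ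
    have h3 : 0 ≤ (w * θ ^ k) ^ a := by positivity
    calc (w * θ ^ k) ^ a * (w * θ ^ k) ≤ (w * θ ^ k) ^ a * θ := mul_le_mul_of_nonneg_left h2 h3
      _ ≤ (w * θ ^ m) * θ := mul_le_mul_of_nonneg_right h1.le hθ.le
      _ = w * (θ ^ m * θ) := by ring
  let kk : ℕ → ℕ := fun n => Nat.rec 0 (fun _ k => nx k) n
  have hkk0 : kk 0 = 0 := rfl
  have hkks : ∀ n, kk (n + 1) = nx (kk n) := fun n => rfl
  have hexe : ∀ n, ∃ e : ℕ, (1 / 2 : ℝ) ^ (e + 1) < w * θ ^ kk n ∧ w * θ ^ kk n ≤ (1 / 2) ^ e :=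
    fun n => exists_nat_pow_near_of_lt_one (hs0 _) ((hs1 _).trans hw1'.le) (by norm_num) (by norm_num)
  choose e he1 he2 using hexe
  have hhi : ∀ n, w * θ ^ kk n * 2 ^ e n ≤ 1 := by
    intro n
    have h1 := mul_le_mul_of_nonneg_right (he2 n) (show (0 : ℝ) ≤ 2 ^ e n by positivity)
    rw [← mul_pow] at h1
    norm_num at h1 ⊢
    exact h1
  have hlo' : ∀ n, 1 < w * θ ^ kk n * 2 ^ (e n + 1) := by
    intro n
    have h1 := mul_lt_mul_of_pos_right (he1 n) (show (0 : ℝ) < 2 ^ (e n + 1) by positivity)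
    rw [← mul_pow] at h1
    norm_num at h1 ⊢
    exact h1
  refine ⟨kk, e, ⟨hkk0, fun n => ?_, fun n => ?_, fun n => ?_, ⟨ha, hv, fun n => hs0 _, hhi,
    fun n => (hlo' n).le, ?_, fun n => ?_, fun n => ?_, ?_⟩⟩⟩
  · rw [hkks]
    exact hnx2 _
  · rw [hkks]
    exact hnx1 _
  · rw [hkks]
    exact hnx3 _
  · -- v ≤ e 0
    by_contra hcon
    push Not at hcon
    have h1 := hlo' 0
    rw [hkk0, pow_zero, mul_one] at h1
    have h2 : (2 : ℝ) ^ (e 0 + 1) ≤ 2 ^ v := pow_le_pow_right₀ (by norm_num) (by omega)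
    have h3 := mul_le_mul_of_nonneg_left h2 hw.le
    linarith
  · -- a e n ≤ e (n+1)
    by_contra hcon
    push Not at hcon
    have h1 := hlo' (n + 1)
    have h2 : w * θ ^ kk (n + 1) ≤ (w * θ ^ kk n) ^ a := by rw [hkks]; exact hnx1 _
    have h3 : (2 : ℝ) ^ (e (n + 1) + 1) ≤ 2 ^ (a * e n) := pow_le_pow_right₀ (by norm_num) (by omega)
    have h4 : (w * θ ^ kk n * 2 ^ e n) ^ a ≤ 1 := pow_le_one₀ (by have := hs0 (kk n); positivity) (hhi n)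
    have h5 : (w * θ ^ kk n) ^ a * 2 ^ (a * e n) ≤ 1 := by
      rw [mul_pow, ← pow_mul, mul_comm (e n) a] at h4
      exact h4
    have h6 : w * θ ^ kk (n + 1) * 2 ^ (e (n + 1) + 1) ≤ (w * θ ^ kk n) ^ a * 2 ^ (a * e n) :=
      mul_le_mul h2 h3 (by positivity) (by have := hs0 (kk n); positivity)
    linarith
  · -- e (n+1) ≤ (a+1)(e n + 1)
    by_contra hcon
    push Not at hcon
    have h1 := hhi (n + 1)
    have h2 : (w * θ ^ kk n) ^ (a + 1) ≤ w * θ ^ kk (n + 1) := by rw [hkks]; exact hnx3 _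
    have h3 : (2 : ℝ) ^ ((a + 1) * (e n + 1)) ≤ 2 ^ (e (n + 1)) :=
      pow_le_pow_right₀ (by norm_num) (by omega)
    have h4 : 1 < (w * θ ^ kk n * 2 ^ (e n + 1)) ^ (a + 1) :=
      one_lt_pow₀ (hlo' n) (by omega)
    have h5 : 1 < (w * θ ^ kk n) ^ (a + 1) * 2 ^ ((a + 1) * (e n + 1)) := by
      rw [mul_pow, ← pow_mul, mul_comm (e n + 1) (a + 1)] at h4
      exact h4
    have h6 : (w * θ ^ kk n) ^ (a + 1) * 2 ^ ((a + 1) * (e n + 1)) ≤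
        w * θ ^ kk (n + 1) * 2 ^ (e (n + 1)) :=
      mul_le_mul h2 h3 (by positivity) (hs0 _).le
    linarith
  · -- antitone
    refine antitone_nat_of_succ_le fun n => ?_
    show w * θ ^ kk (n + 1) ≤ w * θ ^ kk n
    refine mul_le_mul_of_nonneg_left ?_ hw.le
    refine pow_le_pow_of_le_one hθ.le hθ1.le ?_
    rw [hkks]
    exact (hnx2 _).le

/-- the number of the stages of a super-stage -/
theorem kq_count (w θ : ℝ) (v a h : ℕ) (kk e : ℕ → ℕ) (hθ : 0 < θ) (hθ1 : θ < 1)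
    (hh : θ ^ h ≤ 1 / 2) (hw : 0 < w) (hw1 : w ≤ 1) (H : Kq w θ v a kk e) (n : ℕ) :
    kk (n + 1) ≤ kk n + h * (e (n + 1) + 2) := by
  by_contra hcon
  push Not at hcon
  have h1 : 1 ≤ w * θ ^ kk (n + 1) * 2 ^ (e (n + 1) + 1) := H.sq.lo (n + 1)
  have h2 : θ ^ kk (n + 1) ≤ θ ^ (h * (e (n + 1) + 2)) :=
    pow_le_pow_of_le_one hθ.le hθ1.le (by omega)
  have h3 : θ ^ (h * (e (n + 1) + 2)) ≤ (1 / 2) ^ (e (n + 1) + 2) := by
    rw [pow_mul]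
    exact pow_le_pow_left₀ (by positivity) hh _
  have h4 : w * θ ^ kk (n + 1) ≤ (1 / 2) ^ (e (n + 1) + 2) := by
    have h5 : 0 ≤ θ ^ kk (n + 1) := by positivity
    nlinarith
  have h6 : w * θ ^ kk (n + 1) * 2 ^ (e (n + 1) + 1) ≤ (1 / 2) ^ (e (n + 1) + 2) * 2 ^ (e (n + 1) + 1) :=
    mul_le_mul_of_nonneg_right h4 (by positivity)
  have h7 : (1 / 2 : ℝ) ^ (e (n + 1) + 2) * 2 ^ (e (n + 1) + 1) = 1 / 2 := by
    rw [pow_succ, mul_right_comm, ← mul_pow]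
    norm_num
  linarith

namespace Sq

variable {v a : ℕ} {s : ℕ → ℝ} {e : ℕ → ℕ}

theorem lin (H : Sq v a s e) (n : ℕ) : v + n ≤ e n := by
  induction n with
  | zero => exact H.ev
  | succ n ih =>
    have h1 := H.e1 n
    have h2 : 2 * e n ≤ a * e n := Nat.mul_le_mul_right _ H.a2
    have := H.v1
    omega

theorem ge (H : Sq v a s e) (n : ℕ) : v ≤ e n := by
  have := H.lin n
  omega

theorem le_one (H : Sq v a s e) (n : ℕ) : s n ≤ 1 := by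
  have h1 := H.hi n
  have h2 : (1 : ℝ) ≤ 2 ^ e n := one_le_pow₀ (by norm_num)
  have h3 := (H.pos n).le
  nlinarith

end Sq

/-! ### The exponents of the sides and of the radii -/

/-- exponent of the side of the torus -/
def mt (C0 a : ℕ) (e : ℕ → ℕ) (N : ℕ) : ℕ := a * (C0 * (e (N + 1) + 1))

/-- exponents of the sides of the blocks -/
def lt (C0 a m0 : ℕ) (e : ℕ → ℕ) (N n : ℕ) : ℕ :=
  if n ≤ N then C0 * (e (n + 1) + 1) else mt C0 a e N + (n - N - 1) * (m0 + 3) + m0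

/-- exponents of the radii -/
def rt (C0 a m0 : ℕ) (e : ℕ → ℕ) (N n : ℕ) : ℕ :=
  if n ≤ N then 3 * (e (n + 1) + 1) else mt C0 a e N + (n - N - 1) * (m0 + 3)

theorem lt_of_le {C0 a m0 : ℕ} {e : ℕ → ℕ} {N n : ℕ} (h : n ≤ N) :
    lt C0 a m0 e N n = C0 * (e (n + 1) + 1) := by simp [lt, h]

theorem rt_of_le {C0 a m0 : ℕ} {e : ℕ → ℕ} {N n : ℕ} (h : n ≤ N) :
    rt C0 a m0 e N n = 3 * (e (n + 1) + 1) := by simp [rt, h]

theorem lt_of_gt {C0 a m0 : ℕ} {e : ℕ → ℕ} {N n : ℕ} (h : N < n) :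
    lt C0 a m0 e N n = mt C0 a e N + (n - N - 1) * (m0 + 3) + m0 := by
  simp [lt, Nat.not_le.2 h]

theorem rt_of_gt {C0 a m0 : ℕ} {e : ℕ → ℕ} {N n : ℕ} (h : N < n) :
    rt C0 a m0 e N n = mt C0 a e N + (n - N - 1) * (m0 + 3) := by
  simp [rt, Nat.not_le.2 h]

section exps

variable {v a C0 m0 : ℕ} {s : ℕ → ℝ} {e : ℕ → ℕ} (H : Sq v a s e) (N : ℕ)
  (hC : 5 ≤ C0) (h3a : C0 + 1 ≤ 3 * a) (hv : C0 ≤ v) (hvm : m0 ≤ v)

include H hC h3a hv in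
theorem lr (n : ℕ) : 3 + lt C0 a m0 e N n ≤ rt C0 a m0 e N (n + 1) := by
  rcases lt_trichotomy n N with h | h | h
  · rw [lt_of_le h.le, rt_of_le (show n + 1 ≤ N from h)]
    have h1 := H.e1 (n + 1)
    have h2 := H.ge (n + 1)
    have h3 : (C0 + 1) * e (n + 1) ≤ 3 * a * e (n + 1) := Nat.mul_le_mul_right _ h3a
    have h4 : C0 * (e (n + 1) + 1) = C0 * e (n + 1) + C0 := by ring
    have h5 : (C0 + 1) * e (n + 1) = C0 * e (n + 1) + e (n + 1) := by ring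
    have h6 : 3 * a * e (n + 1) = 3 * (a * e (n + 1)) := by ring
    omega
  · subst h
    rw [lt_of_le le_rfl, rt_of_gt (Nat.lt_succ_self n)]
    have h1 : (n + 1 - n - 1) * (m0 + 3) = 0 := by simp
    rw [h1, add_zero]
    unfold mt
    have h2 : 2 * (C0 * (e (n + 1) + 1)) ≤ a * (C0 * (e (n + 1) + 1)) := Nat.mul_le_mul_right _ H.a2
    have h3 := H.ge (n + 1)
    have h5 : 5 * (e (n + 1) + 1) ≤ C0 * (e (n + 1) + 1) := Nat.mul_le_mul_right _ hC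
    omega
  · rw [lt_of_gt h, rt_of_gt (by omega : N < n + 1)]
    have h1 : n + 1 - N - 1 = (n - N - 1) + 1 := by omega
    rw [h1, Nat.add_mul]
    omega

include H hC hvm in
theorem rl (n : ℕ) : m0 + rt C0 a m0 e N (n + 1) ≤ lt C0 a m0 e N (n + 1) := by
  rcases Nat.lt_or_ge N (n + 1) with h | h
  · rw [lt_of_gt h, rt_of_gt h]
    omega
  · rw [lt_of_le h, rt_of_le h]
    have h1 := H.ge (n + 1 + 1)
    have h5 : 5 * (e (n + 1 + 1) + 1) ≤ C0 * (e (n + 1 + 1) + 1) := Nat.mul_le_mul_right _ hC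
    omega

include H hC h3a hv hvm in
theorem lmono : Monotone (lt C0 a m0 e N) := by
  refine monotone_nat_of_le_succ fun n => ?_
  have h1 := lr H N hC h3a hv (m0 := m0) n
  have h2 := rl H N hC hvm n
  omega

include H hC in
theorem l_ge (n : ℕ) : 5 * v ≤ lt C0 a m0 e N n := by
  rcases Nat.lt_or_ge N n with h | h
  · rw [lt_of_gt h]
    unfold mt
    have h1 := H.ge (N + 1)
    have h5 : 5 * (e (N + 1) + 1) ≤ C0 * (e (N + 1) + 1) := Nat.mul_le_mul_right _ hC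
    have h6 : 1 * (C0 * (e (N + 1) + 1)) ≤ a * (C0 * (e (N + 1) + 1)) :=
      Nat.mul_le_mul_right _ (by have := H.a2; omega)
    omega
  · rw [lt_of_le h]
    have h1 := H.ge (n + 1)
    have h5 : 5 * (e (n + 1) + 1) ≤ C0 * (e (n + 1) + 1) := Nat.mul_le_mul_right _ hC
    omega

include H hC hvm in
theorem l_succ (n : ℕ) : lt C0 a m0 e N (n + 1) ≤ (a + 2) * lt C0 a m0 e N n := by
  rcases lt_trichotomy n N with h | h | h
  · rw [lt_of_le h.le, lt_of_le (show n + 1 ≤ N from h)]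
    have h1 := H.e2 (n + 1)
    have h2 : C0 * (e (n + 1 + 1) + 1) ≤ C0 * ((a + 1) * (e (n + 1) + 1) + 1) :=
      Nat.mul_le_mul_left _ (by omega)
    have h3 : C0 * ((a + 1) * (e (n + 1) + 1) + 1) ≤ C0 * ((a + 2) * (e (n + 1) + 1)) := by
      refine Nat.mul_le_mul_left _ ?_
      have : (a + 2) * (e (n + 1) + 1) = (a + 1) * (e (n + 1) + 1) + (e (n + 1) + 1) := by ring
      omega
    have h4 : C0 * ((a + 2) * (e (n + 1) + 1)) = (a + 2) * (C0 * (e (n + 1) + 1)) := by ring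
    omega
  · subst h
    rw [lt_of_le le_rfl, lt_of_gt (Nat.lt_succ_self n)]
    have h1 : (n + 1 - n - 1) * (m0 + 3) = 0 := by simp
    rw [h1, add_zero]
    unfold mt
    have h2 := H.ge (n + 1)
    have h5 : 5 * (e (n + 1) + 1) ≤ C0 * (e (n + 1) + 1) := Nat.mul_le_mul_right _ hC
    have h6 : (a + 2) * (C0 * (e (n + 1) + 1)) =
        a * (C0 * (e (n + 1) + 1)) + 2 * (C0 * (e (n + 1) + 1)) := by ring
    omega
  · rw [lt_of_gt h, lt_of_gt (by omega : N < n + 1)]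
    have h1 : n + 1 - N - 1 = (n - N - 1) + 1 := by omega
    rw [h1, Nat.add_mul]
    have h2 : 5 * v ≤ lt C0 a m0 e N n := l_ge H N hC n
    rw [lt_of_gt h] at h2
    have h3 := H.v1
    have h4 : 2 * (mt C0 a e N + (n - N - 1) * (m0 + 3) + m0) ≤
        (a + 2) * (mt C0 a e N + (n - N - 1) * (m0 + 3) + m0) :=
      Nat.mul_le_mul_right _ (by omega)
    omega

end exps

/-- the scales satisfy `Scl` -/
theorem scl_scl {v a C0 m0 : ℕ} {s : ℕ → ℝ} {e : ℕ → ℕ} (H : Sq v a s e) (d J N μ : ℕ)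
    (hC : 5 ≤ C0) (h3a : C0 + 1 ≤ 3 * a) (hv : C0 ≤ v) (hvm : m0 ≤ v) (hJ : 1 ≤ J)
    (hm0 : 104 * (3 ^ d * J) ≤ 2 ^ m0) :
    Scl (geoT d μ (lt C0 a m0 e N) (fun n => 2 ^ rt C0 a m0 e N n) J N) d where
  J1 := hJ
  one n := Nat.one_le_two_pow
  rho n := by
    show 8 * 2 ^ lt C0 a m0 e N n ≤ 2 ^ rt C0 a m0 e N (n + 1)
    have h8 : (8 : ℕ) = 2 ^ 3 := by norm_num
    rw [h8, ← pow_add]
    exact Nat.pow_le_pow_right (by norm_num) (lr H N hC h3a hv n)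
  big n := by
    show 8 * (3 ^ d * J * (5 * 2 ^ lt C0 a m0 e N n + 12 * 2 ^ rt C0 a m0 e N (n + 1))) ≤
      2 ^ lt C0 a m0 e N (n + 1)
    have h1 : 2 ^ 3 * 2 ^ lt C0 a m0 e N n ≤ 2 ^ rt C0 a m0 e N (n + 1) := by
      rw [← pow_add]
      exact Nat.pow_le_pow_right (by norm_num) (lr H N hC h3a hv n)
    have h3 : 5 * 2 ^ lt C0 a m0 e N n + 12 * 2 ^ rt C0 a m0 e N (n + 1) ≤
        13 * 2 ^ rt C0 a m0 e N (n + 1) := by omega
    calc 8 * (3 ^ d * J * (5 * 2 ^ lt C0 a m0 e N n + 12 * 2 ^ rt C0 a m0 e N (n + 1)))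
        ≤ 8 * (3 ^ d * J * (13 * 2 ^ rt C0 a m0 e N (n + 1))) :=
          Nat.mul_le_mul_left _ (Nat.mul_le_mul_left _ h3)
      _ = 104 * (3 ^ d * J) * 2 ^ rt C0 a m0 e N (n + 1) := by ring
      _ ≤ 2 ^ m0 * 2 ^ rt C0 a m0 e N (n + 1) := Nat.mul_le_mul_right _ hm0
      _ = 2 ^ (m0 + rt C0 a m0 e N (n + 1)) := by rw [← pow_add]
      _ ≤ _ := Nat.pow_le_pow_right (by norm_num) (rl H N hC hvm n)

end Pool.Agent.ANP.H61
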