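import Pool.Agent.Helper61_ANP.Scl

/-!
# The scales: numbers of sites
-/

set_option autoImplicit false

open Finset Filter

noncomputable section

namespace Pool.Agent.ANP.H61

/-- the number of the kills for one cluster -/
def KN (k1 : ℝ) (s : ℕ → ℝ) (N n : ℕ) : ℕ := if n ≤ N then ⌊s (n + 1) ^ (-k1)⌋₊ else 0

/-- the number of the sites of a block of level `n` which die in super-stage `n` -/
def DN (d J C0 a m0 : ℕ) (k1 : ℝ) (s : ℕ → ℝ) (e : ℕ → ℕ) (N n : ℕ) : ℕ :=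
  if n = 0 then 0 else
    3 ^ d * J * (KN k1 s N n + 3 ^ d * J * (6 * 2 ^ lt C0 a m0 e N (n - 1) + 1) ^ d)

section nums

variable {v a C0 m0 : ℕ} {s : ℕ → ℝ} {e : ℕ → ℕ} (H : Sq v a s e) (d J N : ℕ)

theorem six_le (l d : ℕ) : (6 * 2 ^ l + 1) ^ d ≤ 2 ^ (3 * d + d * l) := by
  have h2 : 6 * 2 ^ l + 1 ≤ 2 ^ (3 + l) := by
    rw [pow_add]
    have : 1 ≤ 2 ^ l := Nat.one_le_two_pow
    omega
  calc (6 * 2 ^ l + 1) ^ d ≤ (2 ^ (3 + l)) ^ d := Nat.pow_le_pow_left h2 d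
    _ = _ := by
      rw [← pow_mul]
      congr 1
      ring

include H in
/-- the size of a cluster -/
theorem clu (c1 : ℝ) (hc : 0 ≤ c1) (hca : ((d * C0 + 1 : ℕ) : ℝ) ≤ c1 * a)
    (hv : (3 ^ d * J) ^ 2 * 2 ^ (3 * d + d * C0) ≤ v) (m : ℕ) (hm : m + 1 ≤ N) :
    (((3 ^ d * J) ^ 2 * (6 * 2 ^ lt C0 a m0 e N m + 1) ^ d : ℕ) : ℝ) ≤ s (m + 2) ^ (-c1) := by
  have h1 : (3 ^ d * J) ^ 2 * (6 * 2 ^ lt C0 a m0 e N m + 1) ^ d ≤
      2 ^ ((d * C0 + 1) * e (m + 1)) := by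
    rw [lt_of_le (show m ≤ N by omega)]
    calc (3 ^ d * J) ^ 2 * (6 * 2 ^ (C0 * (e (m + 1) + 1)) + 1) ^ d
        ≤ (3 ^ d * J) ^ 2 * 2 ^ (3 * d + d * (C0 * (e (m + 1) + 1))) :=
          Nat.mul_le_mul_left _ (six_le _ _)
      _ = (3 ^ d * J) ^ 2 * 2 ^ (3 * d + d * C0) * 2 ^ (d * C0 * e (m + 1)) := by
          rw [mul_assoc, ← pow_add]
          congr 2
          ring
      _ ≤ v * 2 ^ (d * C0 * e (m + 1)) := Nat.mul_le_mul_right _ hv
      _ ≤ 2 ^ e (m + 1) * 2 ^ (d * C0 * e (m + 1)) :=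
          Nat.mul_le_mul_right _ ((H.ge (m + 1)).trans (Nat.lt_two_pow_self).le)
      _ = _ := by
          rw [← pow_add]
          congr 1
          ring
  have h3 := rp_lo (s (m + 2)) c1 (e (m + 2)) (H.pos _) (H.hi _) hc
  refine le_trans ?_ h3
  calc (((3 ^ d * J) ^ 2 * (6 * 2 ^ lt C0 a m0 e N m + 1) ^ d : ℕ) : ℝ)
      ≤ ((2 ^ ((d * C0 + 1) * e (m + 1)) : ℕ) : ℝ) := by exact_mod_cast h1
    _ = (2 : ℝ) ^ (((d * C0 + 1 : ℕ) : ℝ) * (e (m + 1) : ℝ)) := by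
        push_cast
        rw [← Real.rpow_natCast]
        push_cast
        rfl
    _ ≤ (2 : ℝ) ^ (c1 * (e (m + 2) : ℝ)) := by
        refine Real.rpow_le_rpow_of_exponent_le (by norm_num) ?_
        have h5 : ((a : ℝ) * e (m + 1)) ≤ e (m + 2) := by exact_mod_cast H.e1 (m + 1)
        push_cast at hca ⊢
        have h4 : (0 : ℝ) ≤ e (m + 1) := by positivity
        nlinarith

include H in
/-- the kills and the clusters -/
theorem dn_le (c1 k1 k2 : ℝ) (hc : 0 ≤ c1) (hck : c1 ≤ k1) (hk : k1 < k2)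
    (hca : ((d * C0 + 1 : ℕ) : ℝ) ≤ c1 * a)
    (hv : (3 ^ d * J) ^ 2 * 2 ^ (3 * d + d * C0) ≤ v) (E : ℕ)
    (hE : ∀ e : ℕ, E ≤ e → (((3 ^ d * J : ℕ) : ℝ) + 1) * ((e : ℝ) + 1) ≤ (2 : ℝ) ^ ((k2 - k1) * e))
    (hvE : E ≤ v) (n : ℕ) (hn : n ≤ N) :
    ((DN d J C0 a m0 k1 s e N n : ℕ) : ℝ) ≤ s (n + 1) ^ (-k2) := by
  have hs := H.pos (n + 1)
  have hs1 := H.le_one (n + 1)
  unfold DN
  rcases Nat.eq_zero_or_pos n with h0 | h0
  · rw [if_pos h0]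
    push_cast
    exact Real.rpow_nonneg hs.le _
  · obtain ⟨m, rfl⟩ : ∃ m, n = m + 1 := ⟨n - 1, by omega⟩
    have h1 := clu H (m0 := m0) d J N c1 hc hca hv m hn
    rw [if_neg (Nat.succ_ne_zero m)]
    have h2 : ((KN k1 s N (m + 1) : ℕ) : ℝ) ≤ s (m + 2) ^ (-k1) := by
      unfold KN
      rw [if_pos hn]
      exact Nat.floor_le (Real.rpow_nonneg hs.le _)
    have h3 : s (m + 2) ^ (-c1) ≤ s (m + 2) ^ (-k1) := rp_mono _ hs hs1 _ _ hck
    have h4 := rp_lo (s (m + 2)) (k2 - k1) (e (m + 2)) hs (H.hi _) (by linarith)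
    have h5 := hE (e (m + 2)) (hvE.trans (H.ge _))
    have h6 : s (m + 2) ^ (-k2) = s (m + 2) ^ (-(k2 - k1)) * s (m + 2) ^ (-k1) := by
      rw [← Real.rpow_add hs]
      congr 1
      ring
    have h7 : (0 : ℝ) ≤ s (m + 2) ^ (-k1) := Real.rpow_nonneg hs.le _
    have h8 : ((3 ^ d * J : ℕ) : ℝ) + 1 ≤ s (m + 2) ^ (-(k2 - k1)) := by
      refine le_trans ?_ h4
      refine le_trans ?_ h5
      have h9 : (0 : ℝ) ≤ (((3 ^ d * J : ℕ) : ℝ) + 1) := by positivity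
      have h10 : (0 : ℝ) ≤ (e (m + 2) : ℝ) := by positivity
      nlinarith
    have h11 : (0 : ℝ) ≤ ((3 ^ d * J : ℕ) : ℝ) := by positivity
    rw [Nat.add_sub_cancel]
    calc ((3 ^ d * J * (KN k1 s N (m + 1) +
            3 ^ d * J * (6 * 2 ^ lt C0 a m0 e N m + 1) ^ d) : ℕ) : ℝ)
        = ((3 ^ d * J : ℕ) : ℝ) * (KN k1 s N (m + 1) : ℕ) +
          (((3 ^ d * J) ^ 2 * (6 * 2 ^ lt C0 a m0 e N m + 1) ^ d : ℕ) : ℝ) := by
          push_cast
          ring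
      _ ≤ ((3 ^ d * J : ℕ) : ℝ) * s (m + 2) ^ (-k1) + s (m + 2) ^ (-k1) :=
          add_le_add (mul_le_mul_of_nonneg_left h2 h11) (h1.trans h3)
      _ = (((3 ^ d * J : ℕ) : ℝ) + 1) * s (m + 2) ^ (-k1) := by ring
      _ ≤ _ := by
          show _ ≤ s (m + 1 + 1) ^ (-k2)
          rw [h6]
          exact mul_le_mul_of_nonneg_right h8 h7

theorem dn_last (k1 : ℝ) (hv : (3 ^ d * J) ^ 2 * 2 ^ (3 * d + d * C0) ≤ v) :
    DN d J C0 a m0 k1 s e N (N + 1) ≤ 2 ^ (v + d * (C0 * (e (N + 1) + 1))) := by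
  unfold DN KN
  rw [if_neg (Nat.succ_ne_zero N), if_neg (by omega), Nat.add_sub_cancel, zero_add,
    lt_of_le (le_refl N)]
  have h1 := six_le (C0 * (e (N + 1) + 1)) d
  have h2 : (3 ^ d * J) ^ 2 * 2 ^ (3 * d) ≤ 2 ^ v := by
    refine le_trans (Nat.mul_le_mul_left _ (Nat.pow_le_pow_right (by norm_num) ?_))
      (hv.trans (Nat.lt_two_pow_self).le)
    omega
  calc 3 ^ d * J * (3 ^ d * J * (6 * 2 ^ (C0 * (e (N + 1) + 1)) + 1) ^ d)
      = (3 ^ d * J) ^ 2 * (6 * 2 ^ (C0 * (e (N + 1) + 1)) + 1) ^ d := by ring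
    _ ≤ (3 ^ d * J) ^ 2 * 2 ^ (3 * d + d * (C0 * (e (N + 1) + 1))) := Nat.mul_le_mul_left _ h1
    _ = (3 ^ d * J) ^ 2 * 2 ^ (3 * d) * 2 ^ (d * (C0 * (e (N + 1) + 1))) := by
        rw [pow_add]; ring
    _ ≤ 2 ^ v * 2 ^ (d * (C0 * (e (N + 1) + 1))) := Nat.mul_le_mul_right _ h2
    _ = _ := by rw [pow_add]

include H in
/-- the density of the dead sites on paths -/
theorem dsum (k1 k2 : ℝ) (hk0 : 0 ≤ k2) (hC : 5 ≤ C0) (hk : k2 + 1 ≤ C0) (hd : d + 1 ≤ a)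
    (hvd : 2 * d + 2 ≤ v) (hv : (3 ^ d * J) ^ 2 * 2 ^ (3 * d + d * C0) ≤ v)
    (hD : ∀ n ≤ N, ((DN d J C0 a m0 k1 s e N n : ℕ) : ℝ) ≤ s (n + 1) ^ (-k2)) :
    ∑ i ∈ range (N + 2), (3 ^ d * (DN d J C0 a m0 k1 s e N i : ℝ)) /
      ((2 ^ lt C0 a m0 e N i : ℕ) : ℝ) ≤ 1 / 4 := by
  have h33 : (3 : ℝ) ^ d ≤ 2 ^ (2 * d) := by
    rw [pow_mul]
    exact pow_le_pow_left₀ (by norm_num) (by norm_num) d
  have key : ∀ i ∈ range (N + 2), (3 ^ d * (DN d J C0 a m0 k1 s e N i : ℝ)) /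
      ((2 ^ lt C0 a m0 e N i : ℕ) : ℝ) ≤ (1 / 2 : ℝ) ^ (i + 2 + 1) := by
    intro i hi
    rw [mem_range] at hi
    have hi2 : i ≤ N ∨ i = N + 1 := by omega
    rw [div_le_iff₀ (by positivity)]
    rcases hi2 with h | h
    · have h1 := hD i h
      have h2 := rp_hi (s (i + 1)) k2 (e (i + 1)) (H.pos _) (H.lo _) hk0
      have h3 : (((2 ^ lt C0 a m0 e N i : ℕ) : ℝ)) =
          (2 : ℝ) ^ ((C0 : ℝ) * ((e (i + 1) : ℝ) + 1)) := by
        rw [lt_of_le h]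
        push_cast
        rw [← Real.rpow_natCast]
        push_cast
        rfl
      have h5 := H.lin (i + 1)
      have h6 : (1 / 2 : ℝ) ^ (i + 2 + 1) = (2 : ℝ) ^ (-((i : ℝ) + 3)) := by
        rw [one_div, inv_pow, Real.rpow_neg (by norm_num)]
        congr 1
        rw [← Real.rpow_natCast]
        push_cast
        ring_nf
      rw [h3, h6, ← Real.rpow_add (by norm_num)]
      calc (3 : ℝ) ^ d * (DN d J C0 a m0 k1 s e N i : ℝ)
          ≤ 2 ^ (2 * d) * (2 : ℝ) ^ (k2 * ((e (i + 1) : ℝ) + 1)) :=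
            mul_le_mul h33 (h1.trans h2) (by positivity) (by positivity)
        _ = (2 : ℝ) ^ ((2 * d : ℕ) + k2 * ((e (i + 1) : ℝ) + 1)) := by
            rw [Real.rpow_add (by norm_num), Real.rpow_natCast]
        _ ≤ _ := by
            refine Real.rpow_le_rpow_of_exponent_le (by norm_num) ?_
            have h7 : ((v : ℝ) + (i + 1)) ≤ e (i + 1) := by exact_mod_cast h5
            have h8 : (2 * (d : ℝ) + 2) ≤ v := by exact_mod_cast hvd
            have h9 : (0 : ℝ) ≤ (e (i + 1) : ℝ) := by positivity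
            push_cast
            nlinarith
    · subst h
      have h1 := dn_last (v := v) (a := a) (m0 := m0) (s := s) (e := e) d J N k1 hv
      have h2 : ((DN d J C0 a m0 k1 s e N (N + 1) : ℕ) : ℝ) ≤
          2 ^ (v + d * (C0 * (e (N + 1) + 1))) := by exact_mod_cast h1
      have h3 : ((2 ^ lt C0 a m0 e N (N + 1) : ℕ) : ℝ) = 2 ^ lt C0 a m0 e N (N + 1) := by
        push_cast
        rfl
      rw [h3]
      calc (3 : ℝ) ^ d * (DN d J C0 a m0 k1 s e N (N + 1) : ℝ)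
          ≤ 2 ^ (2 * d) * 2 ^ (v + d * (C0 * (e (N + 1) + 1))) :=
            mul_le_mul h33 h2 (by positivity) (by positivity)
        _ = (1 / 2 : ℝ) ^ (N + 1 + 2 + 1) *
            (2 ^ (N + 1 + 2 + 1) * 2 ^ (2 * d) * 2 ^ (v + d * (C0 * (e (N + 1) + 1)))) := by
            rw [one_div, inv_pow]
            field_simp
        _ ≤ (1 / 2 : ℝ) ^ (N + 1 + 2 + 1) * 2 ^ lt C0 a m0 e N (N + 1) := by
            refine mul_le_mul_of_nonneg_left ?_ (by positivity)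
            rw [← pow_add, ← pow_add]
            refine pow_le_pow_right₀ (by norm_num) ?_
            rw [lt_of_gt (Nat.lt_succ_self N)]
            unfold mt
            have h4 := H.lin (N + 1)
            have h5 : 5 * (e (N + 1) + 1) ≤ C0 * (e (N + 1) + 1) := Nat.mul_le_mul_right _ hC
            have h6 : (d + 1) * (C0 * (e (N + 1) + 1)) ≤ a * (C0 * (e (N + 1) + 1)) :=
              Nat.mul_le_mul_right _ hd
            have h7 : (d + 1) * (C0 * (e (N + 1) + 1)) =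
              d * (C0 * (e (N + 1) + 1)) + C0 * (e (N + 1) + 1) := by ring
            omega
  refine (Finset.sum_le_sum key).trans ?_
  refine (geo_sum (N + 2) 2).trans ?_
  norm_num

include H in
/-- the constant in the alive distance -/
theorem dcon (k1 k2 k3 : ℝ) (hk0 : 0 ≤ k2) (hk : k2 < k3) (E : ℕ)
    (hE : ∀ e : ℕ, E ≤ e → (2 * 3 ^ d : ℝ) * ((e : ℝ) + 1) ≤ (2 : ℝ) ^ ((k3 - k2) * e))
    (hvE : E ≤ v)
    (hD : ∀ n ≤ N, ((DN d J C0 a m0 k1 s e N n : ℕ) : ℝ) ≤ s (n + 1) ^ (-k2)) (n : ℕ) (hn : n ≤ N) :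
    1 + 2 * ∑ i ∈ range (n + 1), (3 ^ d * (DN d J C0 a m0 k1 s e N i : ℝ)) ≤ s (n + 1) ^ (-k3) := by
  have hs := H.pos (n + 1)
  have hs1 := H.le_one (n + 1)
  have h1 : ∑ i ∈ range (n + 1), (3 ^ d * (DN d J C0 a m0 k1 s e N i : ℝ)) ≤
      (n + 1) * (3 ^ d * s (n + 1) ^ (-k2)) := by
    have h2 : ∀ i ∈ range (n + 1), (3 ^ d * (DN d J C0 a m0 k1 s e N i : ℝ)) ≤
        3 ^ d * s (n + 1) ^ (-k2) := by
      intro i hi
      rw [mem_range] at hi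
      refine mul_le_mul_of_nonneg_left ?_ (by positivity)
      refine (hD i (by omega)).trans ?_
      rw [Real.rpow_neg (H.pos _).le, Real.rpow_neg hs.le]
      refine inv_anti₀ (Real.rpow_pos_of_pos hs _) ?_
      exact Real.rpow_le_rpow hs.le (H.anti (by omega)) hk0
    refine (Finset.sum_le_card_nsmul _ _ _ h2).trans ?_
    rw [card_range, nsmul_eq_mul]
    push_cast
    exact le_rfl
  have h3 := hE (e (n + 1)) (hvE.trans (H.ge _))
  have h4 := rp_lo (s (n + 1)) (k3 - k2) (e (n + 1)) hs (H.hi _) (by linarith)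
  have h5 := H.lin (n + 1)
  have hv1 := H.v1
  have h6 : s (n + 1) ^ (-k3) = s (n + 1) ^ (-(k3 - k2)) * s (n + 1) ^ (-k2) := by
    rw [← Real.rpow_add hs]
    congr 1
    ring
  have h7 : (1 : ℝ) ≤ s (n + 1) ^ (-k2) := by
    have := rp_mono _ hs hs1 0 k2 hk0
    simpa using this
  have h8 : (1 : ℝ) ≤ 3 ^ d := one_le_pow₀ (by norm_num)
  have h9 : ((n : ℝ) + 2) ≤ e (n + 1) := by
    have : n + 2 ≤ e (n + 1) := by omega
    exact_mod_cast this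
  have h10 : 1 + 2 * 3 ^ d * ((n : ℝ) + 1) ≤ s (n + 1) ^ (-(k3 - k2)) := by
    refine le_trans ?_ h4
    refine le_trans ?_ h3
    nlinarith
  rw [h6]
  have h11 : (0 : ℝ) ≤ n := by positivity
  calc 1 + 2 * ∑ i ∈ range (n + 1), (3 ^ d * (DN d J C0 a m0 k1 s e N i : ℝ))
      ≤ s (n + 1) ^ (-k2) + 2 * ((n + 1) * (3 ^ d * s (n + 1) ^ (-k2))) := by linarith
    _ = (1 + 2 * 3 ^ d * ((n : ℝ) + 1)) * s (n + 1) ^ (-k2) := by ring
    _ ≤ _ := mul_le_mul_of_nonneg_right h10 (by linarith)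

include H in
/-- the constant in the alive distance at the end -/
theorem dcon_last (k1 k3 : ℝ) (hC : 5 ≤ C0) (hd : d + 2 ≤ a) (hk0 : 0 ≤ k3) (hk : k3 ≤ 5)
    (hvd : 2 * d + 2 ≤ v) (hv : (3 ^ d * J) ^ 2 * 2 ^ (3 * d + d * C0) ≤ v)
    (h : 1 + 2 * ∑ i ∈ range (N + 1), (3 ^ d * (DN d J C0 a m0 k1 s e N i : ℝ)) ≤
      s (N + 1) ^ (-k3)) :
    64 * (1 + 2 * ∑ i ∈ range (N + 2), (3 ^ d * (DN d J C0 a m0 k1 s e N i : ℝ))) ≤
      2 ^ mt C0 a e N := by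
  have h33 : (3 : ℝ) ^ d ≤ 2 ^ (2 * d) := by
    rw [pow_mul]
    exact pow_le_pow_left₀ (by norm_num) (by norm_num) d
  rw [sum_range_succ]
  have h1 := dn_last (v := v) (a := a) (m0 := m0) (s := s) (e := e) d J N k1 hv
  have h2 : ((DN d J C0 a m0 k1 s e N (N + 1) : ℕ) : ℝ) ≤
      2 ^ (v + d * (C0 * (e (N + 1) + 1))) := by exact_mod_cast h1
  have h3 := rp_hi (s (N + 1)) k3 (e (N + 1)) (H.pos _) (H.lo _) hk0
  have h4 : (2 : ℝ) ^ (k3 * ((e (N + 1) : ℝ) + 1)) ≤ 2 ^ (5 * (e (N + 1) + 1)) := by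
    rw [← Real.rpow_natCast]
    refine Real.rpow_le_rpow_of_exponent_le (by norm_num) ?_
    push_cast
    exact mul_le_mul_of_nonneg_right hk (by positivity)
  have h5 : (2 : ℝ) ^ (5 * (e (N + 1) + 1)) * 128 ≤ 2 ^ mt C0 a e N := by
    have : (128 : ℝ) = 2 ^ 7 := by norm_num
    rw [this, ← pow_add]
    refine pow_le_pow_right₀ (by norm_num) ?_
    unfold mt
    have h5 : 5 * (e (N + 1) + 1) ≤ C0 * (e (N + 1) + 1) := Nat.mul_le_mul_right _ hC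
    have h6 : (d + 2) * (C0 * (e (N + 1) + 1)) ≤ a * (C0 * (e (N + 1) + 1)) :=
      Nat.mul_le_mul_right _ hd
    have h7 : (d + 2) * (C0 * (e (N + 1) + 1)) =
      d * (C0 * (e (N + 1) + 1)) + 2 * (C0 * (e (N + 1) + 1)) := by ring
    have h8 := H.lin (N + 1)
    omega
  have h6 : 2 * (3 ^ d * (DN d J C0 a m0 k1 s e N (N + 1) : ℝ)) * 128 ≤ 2 ^ mt C0 a e N := by
    have h7 : 2 * (3 ^ d * (DN d J C0 a m0 k1 s e N (N + 1) : ℝ)) ≤
        2 * (2 ^ (2 * d) * 2 ^ (v + d * (C0 * (e (N + 1) + 1)))) := by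
      refine mul_le_mul_of_nonneg_left ?_ (by norm_num)
      exact mul_le_mul h33 h2 (by positivity) (by positivity)
    have h8 : (2 : ℝ) * (2 ^ (2 * d) * 2 ^ (v + d * (C0 * (e (N + 1) + 1)))) * 128 ≤
        2 ^ mt C0 a e N := by
      have h9 : (2 : ℝ) * (2 ^ (2 * d) * 2 ^ (v + d * (C0 * (e (N + 1) + 1)))) * 128 =
          2 ^ (8 + 2 * d + (v + d * (C0 * (e (N + 1) + 1)))) := by
        ring
      rw [h9]
      refine pow_le_pow_right₀ (by norm_num) ?_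
      unfold mt
      have h5 : 5 * (e (N + 1) + 1) ≤ C0 * (e (N + 1) + 1) := Nat.mul_le_mul_right _ hC
      have h6 : (d + 2) * (C0 * (e (N + 1) + 1)) ≤ a * (C0 * (e (N + 1) + 1)) :=
        Nat.mul_le_mul_right _ hd
      have h7 : (d + 2) * (C0 * (e (N + 1) + 1)) =
        d * (C0 * (e (N + 1) + 1)) + 2 * (C0 * (e (N + 1) + 1)) := by ring
      have h8 := H.lin (N + 1)
      omega
    linarith
  linarith

end nums

end Pool.Agent.ANP.H61
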